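import Pool.Agent.Helper97.UDP.Defs

/-!
# The extrapolation principle for packings of unit disks
-/

set_option autoImplicit false

namespace Pool.Agent.Helper97.UDP

open Pool.Agent.Helper20.Flip Set Topology

/-- The packings of `m` unit disks (given by their centres) into the closed region bounded by a
polygon. -/
def Packings {n : ℕ} (V : ZMod n → Pt) (m : ℕ) : Set (Fin m → Pt) :=
  {c | (∀ i, disk (c i) ⊆ region V) ∧
    ∀ i j, i ≠ j → 4 ≤ ((c i).1 - (c j).1) ^ 2 + ((c i).2 - (c j).2) ^ 2}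

/-! ### the general principle -/

section general

variable {E : Type*} [AddCommGroup E] [Module ℝ E] [TopologicalSpace E] [IsTopologicalAddGroup E]
  [ContinuousSMul ℝ E]

theorem extrapolate {ι : Type*} [Finite ι] {W : ι → Set E} (hWo : ∀ i, IsOpen (W i))
    (hWc : ∀ i, Convex ℝ (W i)) {x y : E} (hx : ∀ i, x ∉ W i)
    (hxy : ∀ i, x ∈ closure (W i) → y ∈ closure (W i)) :
    ∃ δ > 0, ∀ ε : ℝ, 0 < ε → ε < δ → ∀ i, x + ε • (x - y) ∉ W i := by
  have key : ∀ᶠ ε : ℝ in 𝓝[>] 0, ∀ i, x + ε • (x - y) ∉ W i := by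
    rw [Filter.eventually_all]
    intro i
    by_cases hi : x ∈ closure (W i)
    · filter_upwards [self_mem_nhdsWithin] with ε hε
      have hε : 0 < ε := hε
      intro hz
      apply hx i
      have h1 := (hWc i).openSegment_interior_closure_subset_interior
        (by rw [(hWo i).interior_eq]; exact hz) (hxy i hi)
      rw [(hWo i).interior_eq] at h1
      apply h1
      refine ⟨1 / (1 + ε), ε / (1 + ε), by positivity, by positivity, ?_, ?_⟩
      · field_simp
      · rw [smul_add, smul_sub, smul_sub, smul_smul, smul_smul]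
        have h2 : 1 / (1 + ε) * ε = ε / (1 + ε) := by ring
        rw [h2]
        have h3 : (1 / (1 + ε)) • x + ((ε / (1 + ε)) • x - (ε / (1 + ε)) • y) +
            (ε / (1 + ε)) • y = (1 / (1 + ε) + ε / (1 + ε)) • x := by
          rw [add_smul]; abel
        rw [h3]
        have h4 : 1 / (1 + ε) + ε / (1 + ε) = 1 := by field_simp
        rw [h4, one_smul]
    · have hcont : Filter.Tendsto (fun ε : ℝ => x + ε • (x - y)) (𝓝[>] 0) (𝓝 x) := by
        have h1 : ContinuousAt (fun ε : ℝ => x + ε • (x - y)) 0 := by fun_prop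
        have h2 := h1.tendsto
        simp only [zero_smul, add_zero] at h2
        exact h2.mono_left nhdsWithin_le_nhds
      have hopen : (closure (W i))ᶜ ∈ 𝓝 x := isClosed_closure.isOpen_compl.mem_nhds hi
      filter_upwards [hcont hopen] with ε hε hz
      exact hε (subset_closure hz)
  rw [eventually_nhdsWithin_iff, Metric.eventually_nhds_iff] at key
  obtain ⟨δ, hδ, h⟩ := key
  refine ⟨δ, hδ, fun ε h1 h2 => h ?_ h1⟩
  rw [Real.dist_eq, sub_zero, abs_of_pos h1]
  exact h2

/-- A set which is the complement of finitely many open convex sets: among sufficiently many points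
of an affine image there are two such that the line through them can be extended. -/
theorem extrapolate_image {ι : Type*} [Finite ι] {W : ι → Set E} (hWo : ∀ i, IsOpen (W i))
    (hWc : ∀ i, Convex ℝ (W i)) {F : Set E} (hF : F = {x | ∀ i, x ∉ W i})
    {E' : Type*} [AddCommGroup E'] [Module ℝ E'] (π : E →ᵃ[ℝ] E')
    (S : Finset E') (hS : 2 ^ Nat.card ι < S.card) (hSF : (S : Set E') ⊆ π '' F) :
      ∃ a ∈ S, ∃ b ∈ S, a ≠ b ∧ ∃ δ > 0, ∀ ε : ℝ, 0 < ε → ε < δ → a + ε • (a - b) ∈ π '' F := by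
  classical
  have : Fintype ι := Fintype.ofFinite ι
  choose! X hX using fun a (ha : a ∈ S) => hSF ha
  obtain ⟨a, ha, b, hb, hab, he⟩ := Finset.exists_ne_map_eq_of_card_lt_of_maps_to
    (s := S) (t := (Finset.univ : Finset (Set ι))) (f := fun a => {i | X a ∈ closure (W i)})
    (by rw [Finset.card_univ, Fintype.card_set, ← Nat.card_eq_fintype_card]; exact hS)
    (fun a _ => Finset.mem_univ _)
  refine ⟨a, ha, b, hb, hab, ?_⟩
  have hXa := (hX a ha).1
  rw [hF] at hXa
  obtain ⟨δ, hδ, h⟩ := extrapolate hWo hWc hXa (y := X b) (by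
    intro i hi
    have h1 : i ∈ {i | X a ∈ closure (W i)} := hi
    rw [he] at h1
    exact h1)
  refine ⟨δ, hδ, fun ε h1 h2 => ⟨X a + ε • (X a - X b), ?_, ?_⟩⟩
  · rw [hF]
    exact h ε h1 h2
  · have h3 : X a + ε • (X a - X b) = (ε • (X a - X b)) +ᵥ X a := by
      rw [vadd_eq_add, add_comm]
    have h4 : π.linear (X a - X b) = π (X a) - π (X b) := by
      have := π.linearMap_vsub (X a) (X b)
      rwa [vsub_eq_sub, vsub_eq_sub] at this
    rw [h3, π.map_vadd, map_smul, h4, (hX a ha).2, (hX b hb).2, vadd_eq_add, add_comm]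

end general

/-! ### the complement of the region -/

theorem isClosed_curve {n : ℕ} [NeZero n] (V : ZMod n → Pt) : IsClosed (curve V) := by
  have h1 : curve V = ⋃ i, segment ℝ (V i) (V (i + 1)) := by
    ext p; simp [curve]
  rw [h1]
  refine isClosed_iUnion_of_finite fun i => ?_
  rw [← convexHull_pair]
  have h2 : ({V i, V (i + 1)} : Set Pt).Finite := Set.toFinite _
  exact (h2.isCompact_convexHull (𝕜 := ℝ)).isClosed

theorem same_comp {n : ℕ} {V : ZMod n → Pt} {s : Set Pt} (hs : IsPreconnected s)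
    (hsC : s ⊆ (curve V)ᶜ) {p q : Pt} (hp : p ∈ s) (hq : q ∈ s) (h : p ∈ region V) :
    q ∈ region V := by
  rcases h with h | h
  · exact absurd h (hsC hp)
  · right
    have h1 := hs.subset_connectedComponentIn hp hsC hq
    rw [← connectedComponentIn_eq h1]
    exact h

theorem isOpen_compl_region {n : ℕ} [NeZero n] (V : ZMod n → Pt) : IsOpen (region V)ᶜ := by
  rw [isOpen_iff_mem_nhds]
  intro p hp
  have hpC : p ∉ curve V := fun h => hp (Or.inl h)
  have hopen := (isClosed_curve V).isOpen_compl.connectedComponentIn (x := p)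
  refine Filter.mem_of_superset (hopen.mem_nhds (mem_connectedComponentIn hpC)) ?_
  intro q hq hqR
  apply hp
  exact same_comp isPreconnected_connectedComponentIn (connectedComponentIn_subset _ _) hq
    (mem_connectedComponentIn hpC) hqR

/-- the linear function of an edge -/
def edgeFun {n : ℕ} (V : ZMod n → Pt) (i : ZMod n) (q : Pt) : ℝ :=
  ((V (i + 1)).1 - (V i).1) * (q.2 - (V i).2) - ((V (i + 1)).2 - (V i).2) * (q.1 - (V i).1)

theorem edgeFun_eq_zero {n : ℕ} {V : ZMod n → Pt} {i : ZMod n} {q : Pt}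
    (hq : q ∈ segment ℝ (V i) (V (i + 1))) : edgeFun V i q = 0 := by
  obtain ⟨a, b, ha, hb, hab, rfl⟩ := hq
  unfold edgeFun
  simp only [Prod.fst_add, Prod.snd_add, Prod.smul_fst, Prod.smul_snd, smul_eq_mul]
  have : a = 1 - b := by linarith
  subst this
  ring

/-- the cells of the arrangement of the lines -/
def cell {n : ℕ} (V : ZMod n → Pt) (σ : ZMod n → Prop) : Set Pt :=
  {q | ∀ i, (σ i → 0 < edgeFun V i q) ∧ (¬ σ i → edgeFun V i q < 0)}

theorem convex_cell {n : ℕ} (V : ZMod n → Pt) (σ : ZMod n → Prop) : Convex ℝ (cell V σ) := by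
  intro p hp q hq a b ha hb hab i
  have he : edgeFun V i (a • p + b • q) = a * edgeFun V i p + b * edgeFun V i q := by
    unfold edgeFun
    simp only [Prod.fst_add, Prod.snd_add, Prod.smul_fst, Prod.smul_snd, smul_eq_mul]
    have : a = 1 - b := by linarith
    subst this
    ring
  rw [he]
  obtain ⟨h1, h2⟩ := hp i
  obtain ⟨h3, h4⟩ := hq i
  constructor
  · intro h
    rcases eq_or_lt_of_le ha with h0 | h0
    · have : b = 1 := by linarith
      subst this
      rw [← h0]
      simpa using h3 h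
    · have := mul_pos h0 (h1 h)
      have := mul_nonneg hb (h3 h).le
      linarith
  · intro h
    rcases eq_or_lt_of_le ha with h0 | h0
    · have : b = 1 := by linarith
      subst this
      rw [← h0]
      simpa using h4 h
    · have := mul_neg_of_pos_of_neg h0 (h2 h)
      have := mul_nonpos_of_nonneg_of_nonpos hb (h4 h).le
      linarith

theorem cell_subset {n : ℕ} (V : ZMod n → Pt) (σ : ZMod n → Prop) : cell V σ ⊆ (curve V)ᶜ := by
  rintro q hq ⟨i, hi⟩
  have h1 := edgeFun_eq_zero hi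
  obtain ⟨h2, h3⟩ := hq i
  by_cases h : σ i
  · exact absurd h1 (h2 h).ne'
  · exact absurd h1 (h3 h).ne

theorem dense_generic {n : ℕ} [NeZero n] {V : ZMod n → Pt} (hV : ∀ i, V i ≠ V (i + 1)) :
    Dense {q : Pt | ∀ i, edgeFun V i q ≠ 0} := by
  have h1 : {q : Pt | ∀ i, edgeFun V i q ≠ 0} = ⋂ i, {q : Pt | edgeFun V i q ≠ 0} := by
    ext q; simp
  have hc : ∀ i, Continuous (edgeFun V i) := by
    intro i
    unfold edgeFun
    fun_prop
  rw [h1]
  refine dense_iInter_of_isOpen (fun i => isOpen_ne_fun (hc i) continuous_const) ?_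
  intro i q
  rw [Metric.mem_closure_iff]
  intro r hr
  -- move perpendicular to the line
  set u : ℝ := (V (i + 1)).1 - (V i).1 with hu
  set v : ℝ := (V (i + 1)).2 - (V i).2 with hv
  have huv : 0 < u ^ 2 + v ^ 2 := by
    rcases eq_or_ne u 0 with h | h
    · rcases eq_or_ne v 0 with h' | h'
      · exact absurd (Prod.ext (by linarith) (by linarith)) (hV i)
      · positivity
    · positivity
  by_cases hq : edgeFun V i q = 0
  · obtain ⟨t, ht, ht'⟩ : ∃ t : ℝ, 0 < t ∧ t * (|u| + |v|) < r := by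
      refine ⟨r / (2 * (|u| + |v| + 1)), by positivity, ?_⟩
      have h0 : 0 ≤ |u| + |v| := by positivity
      rw [div_mul_eq_mul_div, div_lt_iff₀ (by positivity)]
      nlinarith
    refine ⟨(q.1 - t * v, q.2 + t * u), ?_, ?_⟩
    · show edgeFun V i _ ≠ 0
      have : edgeFun V i (q.1 - t * v, q.2 + t * u) = edgeFun V i q + t * (u ^ 2 + v ^ 2) := by
        unfold edgeFun
        rw [← hu, ← hv]
        ring
      rw [this, hq, zero_add]
      positivity
    · rw [Prod.dist_eq, max_lt_iff]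
      have hb : ∀ z : ℝ, |z| ≤ |u| + |v| → |t * z| < r := by
        intro z hz
        rw [abs_mul, abs_of_pos ht]
        exact lt_of_le_of_lt (mul_le_mul_of_nonneg_left hz ht.le) ht'
      constructor
      · rw [Real.dist_eq]
        have := hb v (by linarith [abs_nonneg u])
        simpa using this
      · rw [Real.dist_eq]
        have := hb u (by linarith [abs_nonneg v])
        rw [show q.2 - (q.2 + t * u) = -(t * u) by ring, abs_neg]
        exact this
  · exact ⟨q, hq, by simpa using hr⟩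

/-- the centres at distance less than one from a set -/
def nbhd (O : Set Pt) : Set Pt := {c | ∃ q ∈ O, (q.1 - c.1) ^ 2 + (q.2 - c.2) ^ 2 < 1}

theorem isOpen_nbhd (O : Set Pt) : IsOpen (nbhd O) := by
  have h1 : nbhd O = ⋃ q ∈ O, {c : Pt | (q.1 - c.1) ^ 2 + (q.2 - c.2) ^ 2 < 1} := by
    ext c; simp [nbhd]
  rw [h1]
  refine isOpen_biUnion fun q _ => isOpen_lt (by fun_prop) continuous_const

theorem sq_comb {a b x x' y y' : ℝ} (ha : 0 ≤ a) (hb : 0 ≤ b) (hab : a + b = 1) {r : ℝ}
    (h : x ^ 2 + y ^ 2 < r) (h' : x' ^ 2 + y' ^ 2 < r) :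
    (a * x + b * x') ^ 2 + (a * y + b * y') ^ 2 < r := by
  have e : a = 1 - b := by linarith
  have h1 : (a * x + b * x') ^ 2 + (a * y + b * y') ^ 2 =
      a * (x ^ 2 + y ^ 2) + b * (x' ^ 2 + y' ^ 2) - a * b * ((x - x') ^ 2 + (y - y') ^ 2) := by
    subst e; ring
  have h2 : 0 ≤ a * b * ((x - x') ^ 2 + (y - y') ^ 2) := by positivity
  rcases eq_or_lt_of_le ha with h0 | h0
  · have hb1 : b = 1 := by linarith
    subst hb1
    rw [← h0] at h1 ⊢
    nlinarith
  · nlinarith [mul_lt_mul_of_pos_left h h0, mul_le_mul_of_nonneg_left h'.le hb]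

theorem convex_nbhd {O : Set Pt} (hO : Convex ℝ O) : Convex ℝ (nbhd O) := by
  rintro c ⟨q, hq, h⟩ c' ⟨q', hq', h'⟩ a b ha hb hab
  refine ⟨a • q + b • q', hO hq hq' ha hb hab, ?_⟩
  simp only [Prod.fst_add, Prod.snd_add, Prod.smul_fst, Prod.smul_snd, smul_eq_mul]
  have := sq_comb ha hb hab h h'
  have e1 : a * q.1 + b * q'.1 - (a * c.1 + b * c'.1) = a * (q.1 - c.1) + b * (q'.1 - c'.1) := by
    ring
  have e2 : a * q.2 + b * q'.2 - (a * c.2 + b * c'.2) = a * (q.2 - c.2) + b * (q'.2 - c'.2) := by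
    ring
  rw [e1, e2]
  exact this

/-- the disk is contained in the region iff its centre is outside of finitely many convex sets -/
theorem disk_subset_iff {n : ℕ} [NeZero n] {V : ZMod n → Pt} (hV : ∀ i, V i ≠ V (i + 1)) (c : Pt) :
    disk c ⊆ region V ↔ ∀ σ : {σ : ZMod n → Prop // cell V σ ⊆ (region V)ᶜ}, c ∉ nbhd (cell V σ.1) := by
  constructor
  · rintro h ⟨σ, hσ⟩ ⟨q, hq, hqc⟩
    exact hσ hq (h (show q ∈ disk c from hqc.le))
  · intro h q hq
    by_contra hqR
    -- move towards the centre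
    have hO := isOpen_compl_region V
    have hU : IsOpen ((region V)ᶜ ∩ {p : Pt | (p.1 - c.1) ^ 2 + (p.2 - c.2) ^ 2 < 1}) :=
      hO.inter (isOpen_lt (by fun_prop) continuous_const)
    have hne : ((region V)ᶜ ∩ {p : Pt | (p.1 - c.1) ^ 2 + (p.2 - c.2) ^ 2 < 1}).Nonempty := by
      have hq' : (q.1 - c.1) ^ 2 + (q.2 - c.2) ^ 2 ≤ 1 := hq
      have hcont : Filter.Tendsto (fun t : ℝ => ((q.1 + t * (c.1 - q.1), q.2 + t * (c.2 - q.2)) : Pt))
          (𝓝[>] 0) (𝓝 q) := by
        have h1 : ContinuousAt (fun t : ℝ =>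
            ((q.1 + t * (c.1 - q.1), q.2 + t * (c.2 - q.2)) : Pt)) 0 := by fun_prop
        have h2 := h1.tendsto
        simp only [zero_mul, add_zero] at h2
        exact h2.mono_left nhdsWithin_le_nhds
      have h3 : ∀ᶠ t : ℝ in 𝓝[>] 0,
          ((q.1 + t * (c.1 - q.1), q.2 + t * (c.2 - q.2)) : Pt) ∈ (region V)ᶜ :=
        hcont.eventually (hO.mem_nhds hqR)
      have h4 : ∀ᶠ t : ℝ in 𝓝[>] 0, t < 1 :=
        (eventually_lt_nhds one_pos).filter_mono nhdsWithin_le_nhds
      have h5 : ∀ᶠ t : ℝ in 𝓝[>] 0, 0 < t := self_mem_nhdsWithin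
      obtain ⟨t, ht1, ht2, ht3⟩ := (h3.and (h4.and h5)).exists
      refine ⟨_, ht1, ?_⟩
      show (q.1 + t * (c.1 - q.1) - c.1) ^ 2 + (q.2 + t * (c.2 - q.2) - c.2) ^ 2 < 1
      have e1 : (q.1 + t * (c.1 - q.1) - c.1) ^ 2 + (q.2 + t * (c.2 - q.2) - c.2) ^ 2 =
          (1 - t) ^ 2 * ((q.1 - c.1) ^ 2 + (q.2 - c.2) ^ 2) := by ring
      rw [e1]
      have h6 : (1 - t) ^ 2 < 1 := by nlinarith
      have h7 : 0 ≤ (q.1 - c.1) ^ 2 + (q.2 - c.2) ^ 2 := by positivity
      nlinarith [sq_nonneg (1 - t)]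
    obtain ⟨p, hp, hpg⟩ := (dense_generic hV).inter_open_nonempty _ hU hne
    set σ : ZMod n → Prop := fun i => 0 < edgeFun V i p with hσ
    have hpσ : p ∈ cell V σ := by
      intro i
      refine ⟨fun h => h, fun h => ?_⟩
      exact lt_of_le_of_ne (not_lt.1 h) (hpg i)
    have hσR : cell V σ ⊆ (region V)ᶜ := by
      intro q' hq' hq'R
      exact hp.1 (same_comp (convex_cell V σ).isPreconnected (cell_subset V σ) hq' hpσ hq'R)
    exact h ⟨σ, hσR⟩ ⟨p, hpσ, hp.2⟩

/-- the packings are the complement of finitely many open convex sets -/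
theorem packings_eq {n : ℕ} [NeZero n] {V : ZMod n → Pt} (hV : ∀ i, V i ≠ V (i + 1)) (m : ℕ) :
    Packings V m = {c | ∀ k : (Fin m × {σ : ZMod n → Prop // cell V σ ⊆ (region V)ᶜ}) ⊕
      {p : Fin m × Fin m // p.1 ≠ p.2},
      c ∉ Sum.elim (fun k => {c : Fin m → Pt | c k.1 ∈ nbhd (cell V k.2.1)})
        (fun k => {c : Fin m → Pt | ((c k.1.1).1 - (c k.1.2).1) ^ 2 +
          ((c k.1.1).2 - (c k.1.2).2) ^ 2 < 4}) k} := by
  ext c
  constructor
  · rintro ⟨h1, h2⟩ (⟨i, σ⟩ | ⟨⟨i, j⟩, hij⟩)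
    · exact (disk_subset_iff hV (c i)).1 (h1 i) σ
    · exact not_lt.2 (h2 i j hij)
  · intro h
    refine ⟨fun i => (disk_subset_iff hV (c i)).2 fun σ => h (Sum.inl (i, σ)), fun i j hij => ?_⟩
    exact not_lt.1 (h (Sum.inr ⟨(i, j), hij⟩))

theorem card_index (n m : ℕ) (P : (ZMod n → Prop) → Prop) [NeZero n] :
    Nat.card ((Fin m × {σ : ZMod n → Prop // P σ}) ⊕ {p : Fin m × Fin m // p.1 ≠ p.2}) ≤
      m * 2 ^ n + m ^ 2 := by
  classical
  rw [Nat.card_sum, Nat.card_prod, Nat.card_eq_fintype_card (α := Fin m), Fintype.card_fin]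
  have h1 : Nat.card {σ : ZMod n → Prop // P σ} ≤ 2 ^ n := by
    refine (Nat.card_le_card_of_injective _ Subtype.val_injective).trans ?_
    rw [Nat.card_eq_fintype_card, Fintype.card_fun, ZMod.card, Fintype.card_prop]
  have h2 : Nat.card {p : Fin m × Fin m // p.1 ≠ p.2} ≤ m ^ 2 := by
    refine (Nat.card_le_card_of_injective _ Subtype.val_injective).trans ?_
    rw [Nat.card_eq_fintype_card, Fintype.card_prod, Fintype.card_fin, sq]
  exact add_le_add (Nat.mul_le_mul_left m h1) h2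

theorem packings_extrapolate {n : ℕ} {V : ZMod n → Pt} (hV : IsSimple V) (m : ℕ)
    {E' : Type*} [AddCommGroup E'] [Module ℝ E'] (π : (Fin m → Pt) →ᵃ[ℝ] E') (S : Finset E')
    (hS : 2 ^ (m * 2 ^ n + m ^ 2) < S.card) (hSF : (S : Set E') ⊆ π '' Packings V m) :
      ∃ a ∈ S, ∃ b ∈ S, a ≠ b ∧ ∃ δ > 0, ∀ ε : ℝ, 0 < ε → ε < δ →
        a + ε • (a - b) ∈ π '' Packings V m := by
  classical
  have : NeZero n := ⟨by have := hV.1; omega⟩
  refine extrapolate_image ?_ ?_ (packings_eq hV.2.1 m) π S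
    (lt_of_le_of_lt (Nat.pow_le_pow_right two_pos (card_index n m _)) hS) hSF
  · rintro (⟨i, σ⟩ | ⟨⟨i, j⟩, hij⟩)
    · exact (isOpen_nbhd _).preimage (continuous_apply i)
    · simp only [Sum.elim_inr]
      exact isOpen_lt (by fun_prop) continuous_const
  · rintro (⟨i, σ⟩ | ⟨⟨i, j⟩, hij⟩)
    · intro c hc c' hc' a b ha hb hab
      exact convex_nbhd (convex_cell V σ.1) hc hc' ha hb hab
    · intro c hc c' hc' a b ha hb hab
      have := sq_comb ha hb hab hc hc'
      simp only [Sum.elim_inr, Set.mem_ofPred_eq, Pi.add_apply, Pi.smul_apply, Prod.fst_add,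
        Prod.snd_add, Prod.smul_fst, Prod.smul_snd, smul_eq_mul]
      have e1 : a * (c i).1 + b * (c' i).1 - (a * (c j).1 + b * (c' j).1) =
          a * ((c i).1 - (c j).1) + b * ((c' i).1 - (c' j).1) := by ring
      have e2 : a * (c i).2 + b * (c' i).2 - (a * (c j).2 + b * (c' j).2) =
          a * ((c i).2 - (c j).2) + b * ((c' i).2 - (c' j).2) := by ring
      rw [e1, e2]
      exact this

end Pool.Agent.Helper97.UDP
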