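import Pool.Agent.Helper97.UDP.No
import Pool.Agent.Helper30.UDP.Simple
import Pool.Agent.Helper28.UDP.RedE
import Pool.Agent.Helper16.UDP.Region
import Pool.Agent.Helper37.UDP.Partition
import Pool.Agent.Helper40.UDP.Yes
import Pool.Agent.Helper69.TM.Equiv
import Pool.Agent.Helper20.Flip.EncInj

/-!
# Packing unit disks into simple polygons is NP-hard
-/

set_option autoImplicit false

namespace Pool.Agent.Helper97.UDP

open Pool.Agent.Helper20.Flip Pool.Agent.Helper96

theorem rpacks_iff (P : Par) : P.RPacks ↔ P.Balanced :=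
  ⟨balanced_of_rpacks P, rpacks_of_balanced P⟩

theorem stepVerts_ortho {K n : ℕ} {x h : ℕ → ℝ} {V : ZMod n → Pt} (hK : 1 ≤ K)
    (hV : StepVerts K x h V) (i : ZMod n) : (V i).1 = (V (i + 1)).1 ∨ (V i).2 = (V (i + 1)).2 := by
  obtain ⟨rfl, h1, h2⟩ := hV
  have : NeZero (4 * K) := ⟨by omega⟩
  obtain ⟨k, hk, rfl⟩ : ∃ k : ℕ, k < 4 * K ∧ i = (k : ℕ) :=
    ⟨i.val, ZMod.val_lt i, (ZMod.natCast_zmod_val i).symm⟩
  have e1 : ((k : ℕ) : ZMod (4 * K)) + 1 = ((k + 1 : ℕ) : ZMod (4 * K)) := by push_cast; rfl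
  rw [e1]
  rcases lt_or_ge (k + 1) (2 * K) with hk1 | hk1
  · rw [h1 k (by omega), h1 (k + 1) hk1]
    rcases Nat.even_or_odd' k with ⟨t, rfl | rfl⟩
    · right
      rw [show (2 * t + 1) / 2 = 2 * t / 2 by omega]
    · left
      rw [show (2 * t + 1 + 1) / 2 = (2 * t + 1 + 1 + 1) / 2 by omega]
  · rcases eq_or_lt_of_le hk1 with hk2 | hk2
    · -- k + 1 = 2K
      left
      have h3 := h2 (2 * K - 1) (by omega)
      rw [show 4 * K - 1 - (2 * K - 1) = k + 1 by omega] at h3
      rw [h1 k (by omega), h3, show 2 * K - 1 = k by omega]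
    · rcases lt_or_ge (k + 1) (4 * K) with hk3 | hk3
      · have h3 := h2 (4 * K - 1 - k) (by omega)
        have h4 := h2 (4 * K - 1 - (k + 1)) (by omega)
        rw [show 4 * K - 1 - (4 * K - 1 - k) = k by omega] at h3
        rw [show 4 * K - 1 - (4 * K - 1 - (k + 1)) = k + 1 by omega] at h4
        rw [h3, h4]
        obtain ⟨l, hl⟩ : ∃ l, 4 * K - 1 - (k + 1) = l := ⟨_, rfl⟩
        rw [hl, show 4 * K - 1 - k = l + 1 by omega]
        rcases Nat.even_or_odd' l with ⟨t, rfl | rfl⟩
        · right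
          rw [show (2 * t + 1) / 2 = 2 * t / 2 by omega]
        · left
          rw [show (2 * t + 1 + 1) / 2 = (2 * t + 1 + 1 + 1) / 2 by omega]
      · -- k + 1 = 4K
        left
        have hk4 : k + 1 = 4 * K := by omega
        have h3 := h2 0 (by omega)
        rw [show 4 * K - 1 - 0 = k by omega] at h3
        have h4 := h1 0 (by omega)
        rw [Nat.cast_zero] at h4
        rw [h3, hk4, ZMod.natCast_self, h4]

/-- the step polygons are special containers -/
theorem special_of_step {K n : ℕ} {x h : ℕ → ℝ} {V : ZMod n → Pt} (hK : 1 ≤ K)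
    (hV : StepVerts K x h V) (hR : region V =
      {p | ∃ i, i < K ∧ x i ≤ p.1 ∧ p.1 ≤ x (i + 1) ∧ |p.2| ≤ h i})
    (hh : ∀ i < K, h i ≤ 16 / 7) : Special V := by
  refine ⟨stepVerts_ortho hK hV, ?_, ?_, ?_⟩
  · intro a y z t hy ht hyz hzt
    rw [hR] at hy ht ⊢
    obtain ⟨i, hi, h1, h2, h3⟩ := hy
    obtain ⟨j, hj, h4, h5, h6⟩ := ht
    simp only at h1 h2 h3 h4 h5 h6
    have h7 := abs_le.1 h3
    have h8 := abs_le.1 h6
    rcases le_total (h i) (h j) with h9 | h9
    · exact ⟨j, hj, h4, h5, abs_le.2 ⟨by simp only; linarith [h7.1], by simp only; linarith [h8.2]⟩⟩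
    · exact ⟨i, hi, h1, h2, abs_le.2 ⟨by simp only; linarith [h7.1], by simp only; linarith [h8.2]⟩⟩
  · intro a y hy
    rw [hR] at hy ⊢
    obtain ⟨i, hi, h1, h2, h3⟩ := hy
    exact ⟨i, hi, h1, h2, by simpa using h3⟩
  · intro p hp
    rw [hR] at hp
    obtain ⟨i, hi, h1, h2, h3⟩ := hp
    exact h3.trans (hh i hi)

/-- packing unit disks into simple polygons is NP-hard, for every class of containers that contains
the special ones -/
theorem packing_hard (K : ∀ n : ℕ, (ZMod n → Pt) → Prop)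
    (hK : ∀ (n : ℕ) (V : ZMod n → Pt), IsSimple V → Special V → K n V) : NPHard (PACKING K) := by
  intro L hL
  obtain ⟨f, hf, hne, hcorr⟩ := partition_hard (L := L) hL
  obtain ⟨F, hF, hFspec⟩ := exists_redE
  refine ⟨fun w => encInst (F (f w)).1 (F (f w)).2, ?_, ?_⟩
  · refine (Pool.Agent.Helper69.polyTimeFun_iff _).2 ?_
    exact Poly.encInst' (Poly.fst (hF.comp hf)) (Poly.snd (hF.comp hf))
  · intro w
    obtain ⟨P, hm, hw, hN, hden, hV⟩ := hFspec (f w) (hne w)
    have hK1 : 1 ≤ P.K := by unfold Par.K; omega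
    have hsimple : IsSimple (polygon (F (f w)).1) :=
      step_isSimple hK1 hV (fun i hi => P.bx_lt hi) (fun i hi => P.ht_pos hi)
        (fun i hi => P.ht_ne hi)
    have hreg : region (polygon (F (f w)).1) = P.Reg :=
      step_region hK1 hV (fun i hi => P.bx_lt hi) (fun i hi => P.ht_pos hi)
    have hspec : Special (polygon (F (f w)).1) :=
      special_of_step hK1 hV hreg (fun i hi => P.ht_le hi)
    have hpack : Packs (polygon (F (f w)).1) (7 * P.m + 1) ↔ P.Balanced := by
      rw [← rpacks_iff]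
      unfold Packs Par.RPacks
      rw [hreg]
    have hbal : P.Balanced ↔ ∃ ε : ℕ → ℤ, (∀ j, ε j = 1 ∨ ε j = -1) ∧
        ∑ j ∈ Finset.range (f w).length, ε j * (val ((f w).getD j []) : ℤ) = 0 := by
      unfold Par.Balanced
      rw [hm]
      refine exists_congr fun ε => and_congr_right fun _ => ?_
      rw [Finset.sum_congr rfl fun j hj => by rw [hw j (Finset.mem_range.1 hj)]]
    rw [hcorr w, ← hbal, ← hpack, hm]
    constructor
    · intro h
      exact ⟨(F (f w)).1, 7 * (f w).length + 1, by simp only [hN], by omega, hden, hsimple,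
        hK _ _ hsimple hspec, h⟩
    · rintro ⟨Q, N, he, -, -, -, -, h⟩
      obtain ⟨h2, h3⟩ := encInst_inj he
      rw [hN] at h3
      have h4 := congrArg List.length h3
      simp only [List.length_replicate] at h4
      subst h4
      rw [h2]
      exact h

end Pool.Agent.Helper97.UDP
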