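import Pool.Agent.Helper97.UDP.Reg

/-!
# The possible positions of a disk
-/

set_option autoImplicit false

namespace Pool.Agent.Helper97.UDP

open Pool.Agent.Helper20.Flip

namespace Par

variable (P : Par)

theorem bx_mono {a b : ℕ} (hab : a ≤ b) (hb : b ≤ P.K) : P.bx a ≤ P.bx b := by
  induction b, hab using Nat.le_induction with
  | base => exact le_refl _
  | succ b _ ih => exact (ih (by omega)).trans (P.bx_lt (by omega)).le

/-- the step above a given abscissa -/
theorem step_idx {i a b : ℕ} {x : ℝ} (hi : i < P.K) (h1 : P.bx i ≤ x) (h2 : x ≤ P.bx (i + 1))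
    (ha : a ≤ P.K) (hxa : P.bx a < x) (hxb : x < P.bx b) : a ≤ i ∧ i < b := by
  constructor
  · by_contra h
    push Not at h
    have := P.bx_mono (show i + 1 ≤ a by omega) ha
    linarith
  · by_contra h
    push Not at h
    have := P.bx_mono h hi.le
    linarith

theorem mem_disk_right (c : Pt) : ((c.1 + 1, c.2) : Pt) ∈ disk c := by
  simp [disk]

theorem mem_disk_left (c : Pt) : ((c.1 - 1, c.2) : Pt) ∈ disk c := by
  simp [disk]

theorem mem_disk_up (c : Pt) : ((c.1, c.2 + 1) : Pt) ∈ disk c := by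
  simp [disk]

theorem mem_disk_down (c : Pt) : ((c.1, c.2 - 1) : Pt) ∈ disk c := by
  simp [disk]

variable {P}

theorem cx_bounds {c : Pt} (hc : disk c ⊆ P.Reg) : 0 ≤ c.1 ∧ c.1 ≤ P.m * P.G := by
  constructor
  · obtain ⟨i, hi, h1, -, -⟩ := hc (mem_disk_left c)
    have h3 := P.bx_mono (Nat.zero_le i) hi.le
    rw [bx_zero] at h3
    simp only at h1
    linarith
  · obtain ⟨i, hi, -, h2, -⟩ := hc (mem_disk_right c)
    have h3 := P.bx_mono (show i + 1 ≤ P.K by omega) (le_refl _)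
    unfold Par.K at h3
    rw [bx_last] at h3
    simp only at h2
    linarith

theorem vert {c : Pt} (hc : disk c ⊆ P.Reg) {a b : ℕ} {H : ℝ} (ha : a ≤ P.K)
    (hxa : P.bx a < c.1) (hxb : c.1 < P.bx b) (hH : ∀ i, a ≤ i → i < b → P.ht i ≤ H) :
    |c.2| + 1 ≤ H := by
  obtain ⟨i, hi, h1, h2, h3⟩ := hc (mem_disk_up c)
  obtain ⟨i', hi', h1', h2', h3'⟩ := hc (mem_disk_down c)
  simp only at h1 h2 h3 h1' h2' h3'
  have h4 := P.step_idx hi h1 h2 ha hxa hxb
  have h4' := P.step_idx hi' h1' h2' ha hxa hxb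
  have h5 := hH i h4.1 h4.2
  have h5' := hH i' h4'.1 h4'.2
  have h6 := abs_le.1 (h3.trans h5)
  have h6' := abs_le.1 (h3'.trans h5')
  have : |c.2| ≤ H - 1 := abs_le.2 ⟨by linarith [h6'.1], by linarith [h6.2]⟩
  linarith

/-- points strictly inside the fins are outside of the region -/
theorem fin_dist {c : Pt} (hc : disk c ⊆ P.Reg) {a : ℕ} (ha : a < P.K)
    (hh : P.ht a = 4 / 5 + P.τ) {X Y : ℝ} (h1 : P.bx a ≤ X) (h2 : X ≤ P.bx (a + 1))
    (hY : 4 / 5 + P.τ ≤ |Y|) : 1 ≤ (X - c.1) ^ 2 + (Y - c.2) ^ 2 := by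
  have hlt := P.bx_lt ha
  have hτ := P.hτ0
  set g : ℝ → ℝ := fun t => (X + t * ((P.bx a + P.bx (a + 1)) / 2 - X) - c.1) ^ 2 +
    (Y * (1 + t) - c.2) ^ 2 with hg
  have hcont : Continuous g := by rw [hg]; fun_prop
  have hmem : ∀ t ∈ Set.Ioo (0 : ℝ) 1, 1 ≤ g t := by
    intro t ht
    by_contra hlt1
    push Not at hlt1
    have hq : ((X + t * ((P.bx a + P.bx (a + 1)) / 2 - X), Y * (1 + t)) : Pt) ∈ disk c := hlt1.le
    obtain ⟨i, hi, hi1, hi2, hi3⟩ := hc hq
    simp only at hi1 hi2 hi3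
    have ht1 := ht.1
    have ht2 := ht.2
    have hx1 : P.bx a < X + t * ((P.bx a + P.bx (a + 1)) / 2 - X) := by
      nlinarith [mul_nonneg (sub_nonneg.2 ht2.le) (sub_nonneg.2 h1), mul_pos ht1 (sub_pos.2 hlt)]
    have hx2 : X + t * ((P.bx a + P.bx (a + 1)) / 2 - X) < P.bx (a + 1) := by
      nlinarith [mul_nonneg (sub_nonneg.2 ht2.le) (sub_nonneg.2 h2), mul_pos ht1 (sub_pos.2 hlt)]
    have hidx := P.step_idx hi hi1 hi2 ha.le hx1 hx2
    have hia : i = a := by omega
    subst hia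
    rw [hh, abs_mul, abs_of_pos (show 0 < 1 + t by linarith)] at hi3
    nlinarith
  have hcl : IsClosed {t | 1 ≤ g t} := isClosed_le continuous_const hcont
  have h0 : (0 : ℝ) ∈ closure (Set.Ioo (0 : ℝ) 1) := by
    rw [closure_Ioo (by norm_num)]
    exact ⟨le_refl _, by norm_num⟩
  have := hcl.closure_subset_iff.2 (fun t ht => hmem t ht) h0
  simpa [hg] using this

/-- the disks in the necks -/
theorem neck_pos {c : Pt} (hc : disk c ⊆ P.Reg) {j : ℕ} (hj : j ≤ P.m)
    (h1 : j * P.G - 3 / 5 ≤ c.1) (h2 : c.1 ≤ j * P.G + 3 / 5) :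
    |c.2| ≤ P.τ ∧ (j = 0 ∨ j = P.m → c.2 = 0) := by
  have hG := P.G_bounds
  have hτ := P.hτ0
  have hτ' := P.hτ
  have hm := P.hm
  norm_num at hG hτ'
  by_cases hj0 : j = 0 ∨ j = P.m
  · have h3 : |c.2| + 1 ≤ 1 := by
      rcases hj0 with rfl | rfl
      · rcases eq_or_lt_of_le (cx_bounds hc).1 with h0 | h0
        · -- c.1 = 0
          refine vert hc (a := 0) (b := 2) (Nat.zero_le _) (by rw [bx_zero]; linarith)
            (by rw [bx2 P 0]; push_cast; linarith) ?_
          intro i _ hi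
          interval_cases i
          · have := P.ht0 0
            rw [mul_zero] at this
            rw [this]; simp
          · have := P.ht1 0
            rw [mul_zero, zero_add] at this
            rw [this]; linarith
        · refine vert hc (a := 0) (b := 2) (Nat.zero_le _) (by rw [bx_zero]; linarith)
            (by rw [bx2 P 0]; push_cast at h2 ⊢; linarith) ?_
          intro i _ hi
          interval_cases i
          · have := P.ht0 0
            rw [mul_zero] at this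
            rw [this]; simp
          · have := P.ht1 0
            rw [mul_zero, zero_add] at this
            rw [this]; linarith
      · obtain ⟨m', hm'⟩ : ∃ m', P.m = m' + 1 := ⟨P.m - 1, by omega⟩
        have hb := P.bx5 m'
        refine vert hc (a := 6 * m' + 5) (b := 6 * P.m + 1) (by unfold Par.K; omega) ?_ ?_ ?_
        · rw [hb]
          rw [hm'] at h1
          push_cast at h1
          linarith
        · rw [bx_last]; linarith [(cx_bounds hc).2]
        · intro i hi1 hi2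
          have hi : i = 6 * m' + 5 ∨ i = 6 * P.m := by omega
          rcases hi with rfl | rfl
          · rw [ht5]; linarith
          · rw [ht0]; simp
    have h4 : |c.2| ≤ 0 := by linarith
    have h5 : c.2 = 0 := abs_eq_zero.1 (le_antisymm h4 (abs_nonneg _))
    rw [h5]
    simp [hτ.le]
  · push Not at hj0
    refine ⟨?_, fun h => absurd h (by tauto)⟩
    obtain ⟨j', rfl⟩ : ∃ j', j = j' + 1 := ⟨j - 1, by omega⟩
    have hjm : j' + 1 < P.m := by omega
    have h3 : |c.2| + 1 ≤ 5 / 4 := by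
      refine vert hc (a := 6 * j' + 5) (b := 6 * (j' + 1) + 2) (by unfold Par.K; omega) ?_ ?_ ?_
      · rw [bx5]; push_cast at h1; linarith
      · rw [bx2]; linarith
      · intro i hi1 hi2
        have hi : i = 6 * j' + 5 ∨ i = 6 * (j' + 1) ∨ i = 6 * (j' + 1) + 1 := by omega
        rcases hi with rfl | rfl | rfl
        · rw [ht5]; linarith
        · rw [ht0]; split_ifs <;> norm_num
        · rw [ht1]; linarith
    have hR : ∀ Y : ℝ, 4 / 5 + P.τ ≤ |Y| →
        1 ≤ ((((j' + 1 : ℕ) : ℝ) * P.G + 3 / 5) - c.1) ^ 2 + (Y - c.2) ^ 2 := by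
      intro Y hY
      refine fin_dist hc (a := 6 * (j' + 1) + 1) (by unfold Par.K; omega) (P.ht1 _) ?_ ?_ hY
      · rw [bx1 P hjm]
      · rw [show 6 * (j' + 1) + 1 + 1 = 6 * (j' + 1) + 2 by ring, bx2]; linarith
    have hL : ∀ Y : ℝ, 4 / 5 + P.τ ≤ |Y| →
        1 ≤ ((((j' + 1 : ℕ) : ℝ) * P.G - 3 / 5) - c.1) ^ 2 + (Y - c.2) ^ 2 := by
      intro Y hY
      refine fin_dist hc (a := 6 * j' + 5) (by unfold Par.K; omega) (P.ht5 _) ?_ ?_ hY
      · rw [bx5]; push_cast; linarith
      · rw [show 6 * j' + 5 + 1 = 6 * j' + 6 by ring, bx6]; push_cast; linarith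
    have key : ∃ Z : ℝ, 0 ≤ Z ∧ Z ≤ 3 / 5 ∧ ∀ Y : ℝ, 4 / 5 + P.τ ≤ |Y| →
        1 ≤ Z ^ 2 + (Y - c.2) ^ 2 := by
      rcases le_total c.1 (((j' + 1 : ℕ) : ℝ) * P.G) with h | h
      · refine ⟨c.1 - (((j' + 1 : ℕ) : ℝ) * P.G - 3 / 5), by linarith, by linarith, ?_⟩
        intro Y hY
        have := hL Y hY
        nlinarith
      · refine ⟨(((j' + 1 : ℕ) : ℝ) * P.G + 3 / 5) - c.1, by linarith, by linarith, hR⟩
    obtain ⟨Z, hZ0, hZ1, hZ⟩ := key
    have hZ2 : Z ^ 2 ≤ 9 / 25 := by nlinarith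
    rcases le_total 0 c.2 with h | h
    · have h4 := hZ (4 / 5 + P.τ) (by rw [abs_of_pos (by linarith)])
      rw [abs_of_nonneg h] at h3 ⊢
      by_contra hlt
      push Not at hlt
      nlinarith
    · have h4 := hZ (-(4 / 5 + P.τ)) (by rw [abs_neg, abs_of_pos (by linarith)])
      rw [abs_of_nonpos h] at h3 ⊢
      by_contra hlt
      push Not at hlt
      nlinarith

/-- the disks in the gadgets -/
theorem gad_pos {c : Pt} (hc : disk c ⊆ P.Reg) {j : ℕ} (hj : j < P.m)
    (h1 : j * P.G + 3 / 5 < c.1) (h2 : c.1 < j * P.G + (P.G - 3 / 5)) :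
    j * P.G + 1.29 ≤ c.1 ∧ c.1 ≤ j * P.G + (P.G - 1.29) ∧ |c.2| ≤ 9 / 7 - 4 * P.γ j ∧
    (c.1 ≤ j * P.G + 2.96 → |c.2| ≤ 1 + P.γ j) ∧
    (j * P.G + (P.G - 2.96) < c.1 → |c.2| ≤ 1 + P.γ j) := by
  have hG := P.G_bounds
  have hr := P.r_bounds
  have hGr : P.G = 30 / 7 * P.r := rfl
  have hτ := P.hτ0
  have hτ' := P.hτ
  have hγ0 := P.γ_nonneg j
  have hγ := P.γ_le hj
  norm_num at hG hτ' hr
  have hK : 6 * j + 6 ≤ P.K := by unfold Par.K; omega
  have hx1 : P.bx (6 * j + 1) < c.1 := by rw [bx1 P hj]; exact h1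
  have hx6 : c.1 < P.bx (6 * j + 6) := by rw [bx6]; exact h2
  have hv : |c.2| ≤ 9 / 7 - 4 * P.γ j := by
    have := vert hc (a := 6 * j + 1) (b := 6 * j + 6) (H := 16 / 7 - 4 * P.γ j) (by omega) hx1 hx6
      (by
        intro i hi1 hi2
        have hi : i = 6 * j + 1 ∨ i = 6 * j + 2 ∨ i = 6 * j + 3 ∨ i = 6 * j + 4 ∨
          i = 6 * j + 5 := by omega
        rcases hi with rfl | rfl | rfl | rfl | rfl
        · rw [ht1]; linarith
        · rw [ht2]; linarith
        · rw [ht3]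
        · rw [ht4]; linarith
        · rw [ht5]; linarith)
    linarith
  have hv0 := abs_nonneg c.2
  have h7 : j * P.G + 7 / 10 ≤ c.1 := by
    by_contra hlt
    push Not at hlt
    have := vert hc (a := 6 * j + 1) (b := 6 * j + 2) (H := 4 / 5 + P.τ) (by omega) hx1
      (by rw [bx2]; exact hlt) (by
        intro i hi1 hi2
        have hi : i = 6 * j + 1 := by omega
        subst hi
        rw [ht1])
    linarith
  have h7' : c.1 ≤ j * P.G + (P.G - 7 / 10) := by
    by_contra hlt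
    push Not at hlt
    have := vert hc (a := 6 * j + 5) (b := 6 * j + 6) (H := 4 / 5 + P.τ) (by omega)
      (by rw [bx5]; exact hlt) hx6 (by
        intro i hi1 hi2
        have hi : i = 6 * j + 5 := by omega
        subst hi
        rw [ht5])
    linarith
  have hR : ∀ Y : ℝ, 4 / 5 + P.τ ≤ |Y| →
      1 ≤ ((j * P.G + 7 / 10) - c.1) ^ 2 + (Y - c.2) ^ 2 := by
    intro Y hY
    refine fin_dist hc (a := 6 * j + 1) (by omega) (P.ht1 _) ?_ ?_ hY
    · rw [bx1 P hj]; linarith
    · rw [show 6 * j + 1 + 1 = 6 * j + 2 by ring, bx2]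
  have hL : ∀ Y : ℝ, 4 / 5 + P.τ ≤ |Y| →
      1 ≤ ((j * P.G + (P.G - 7 / 10)) - c.1) ^ 2 + (Y - c.2) ^ 2 := by
    intro Y hY
    refine fin_dist hc (a := 6 * j + 5) (by omega) (P.ht5 _) ?_ ?_ hY
    · rw [bx5]
    · rw [show 6 * j + 5 + 1 = 6 * j + 6 by ring, bx6]; linarith
  -- a general estimate
  have gen : ∀ Z : ℝ, 0 ≤ Z → (∀ Y : ℝ, 4 / 5 + P.τ ≤ |Y| → 1 ≤ Z ^ 2 + (Y - c.2) ^ 2) →
      0.59 ≤ Z := by
    intro Z hZ0 hZ
    by_contra hlt
    push Not at hlt
    have hZ2 : Z ^ 2 ≤ 0.3481 := by norm_num at hlt ⊢; nlinarith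
    norm_num at hZ2
    rcases le_total (4 / 5 + P.τ) |c.2| with h | h
    · have := hZ c.2 h
      rw [sub_self] at this
      nlinarith
    · rcases le_total 0 c.2 with h0 | h0
      · have h4 := hZ (4 / 5 + P.τ) (by rw [abs_of_pos (by linarith)])
        rw [abs_of_nonneg h0] at h
        nlinarith
      · have h4 := hZ (-(4 / 5 + P.τ)) (by rw [abs_neg, abs_of_pos (by linarith)])
        rw [abs_of_nonpos h0] at h
        nlinarith
  refine ⟨?_, ?_, hv, ?_, ?_⟩
  · have := gen (c.1 - (j * P.G + 7 / 10)) (by linarith) (by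
      intro Y hY
      have := hR Y hY
      nlinarith)
    norm_num at this ⊢
    linarith
  · have := gen ((j * P.G + (P.G - 7 / 10)) - c.1) (by linarith) hL
    norm_num at this ⊢
    linarith
  · intro h
    have := vert hc (a := 6 * j + 1) (b := 6 * j + 3) (H := 2 + P.γ j) (by omega) hx1
      (by rw [bx3]; norm_num at h ⊢; linarith) (by
        intro i hi1 hi2
        have hi : i = 6 * j + 1 ∨ i = 6 * j + 2 := by omega
        rcases hi with rfl | rfl
        · rw [ht1]; linarith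
        · rw [ht2])
    linarith
  · intro h
    have := vert hc (a := 6 * j + 4) (b := 6 * j + 6) (H := 2 + P.γ j) (by omega)
      (by rw [bx4]; norm_num at h ⊢; linarith) hx6 (by
        intro i hi1 hi2
        have hi : i = 6 * j + 4 ∨ i = 6 * j + 5 := by omega
        rcases hi with rfl | rfl
        · rw [ht4]
        · rw [ht5]; linarith)
    linarith

end Par

end Pool.Agent.Helper97.UDP
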