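import Pool.Agent.Helper20.Flip.Lang

/-!
# Packing unit disks into a simple polygon
-/

set_option autoImplicit false

namespace Pool.Agent.Helper97.UDP

open Pool.Agent.Helper20.Flip

/-- The closed polygonal curve with the given vertices: the union of its edges. -/
def curve {n : ℕ} (V : ZMod n → Pt) : Set Pt := {p | ∃ i, p ∈ segment ℝ (V i) (V (i + 1))}

/-- The closed region bounded by a simple polygon: the points of the boundary curve, and the points
whose connected component in the complement of the curve is bounded. -/
def region {n : ℕ} (V : ZMod n → Pt) : Set Pt :=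
  {p | p ∈ curve V ∨ Bornology.IsBounded (connectedComponentIn (curve V)ᶜ p)}

/-- The closed disk of radius `1` with centre `c`. -/
def disk (c : Pt) : Set Pt := {p | (p.1 - c.1) ^ 2 + (p.2 - c.2) ^ 2 ≤ 1}

/-- `m` disks of radius `1` can be packed into the polygon: there are `m` centres with mutual
distances at least `2` such that the closed disks are contained in the closed region. -/
def Packs {n : ℕ} (V : ZMod n → Pt) (m : ℕ) : Prop :=
  ∃ c : Fin m → Pt, (∀ i, disk (c i) ⊆ region V) ∧
    ∀ i j, i ≠ j → 4 ≤ ((c i).1 - (c j).1) ^ 2 + ((c i).2 - (c j).2) ^ 2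

/-- The decision problem of packing unit disks into a simple polygon of the class `K`: the words
encoding a pair `(P, m)`, where `P` is the list of the vertices of a simple polygon in `K`, with
rational coordinates in binary, and the number `m > 0` of disks is written in unary (one letter for
every disk), such that `m` unit disks can be packed into `P`. -/
def PACKING (K : ∀ n : ℕ, (ZMod n → Pt) → Prop) : Set (List Bool) :=
  {w | ∃ (P : List (RatCode × RatCode)) (m : ℕ), w = encInst P (List.replicate m true) ∧ 0 < m ∧
    (∀ q ∈ P, val q.1.2.2 ≠ 0 ∧ val q.2.2.2 ≠ 0) ∧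
    IsSimple (polygon P) ∧ K P.length (polygon P) ∧ Packs (polygon P) m}

/-- Special containers: every edge is horizontal or vertical, every vertical line meets the region
in an interval (so the polygon is `x`-monotone), the region is symmetric about the `x`-axis and
is contained in the strip of height `32/7`. -/
def Special {n : ℕ} (V : ZMod n → Pt) : Prop :=
  (∀ i, (V i).1 = (V (i + 1)).1 ∨ (V i).2 = (V (i + 1)).2) ∧
  (∀ x y z t : ℝ, (x, y) ∈ region V → (x, t) ∈ region V → y ≤ z → z ≤ t → (x, z) ∈ region V) ∧
  (∀ x y : ℝ, (x, y) ∈ region V → (x, -y) ∈ region V) ∧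
  ∀ p ∈ region V, |p.2| ≤ 16 / 7

end Pool.Agent.Helper97.UDP
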