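import Pool.Agent.Helper97.UDP.Struct

/-!
# Relations between the positions of disks: functions and facets
-/

set_option autoImplicit false

namespace Pool.Agent.Helper97.UDP.Gad

open Set Topology Pool.Agent.Helper20.Flip

theorem aff_line (g : Pt →ᵃ[ℝ] ℝ) (p q : Pt) (s : ℝ) :
    g (p + s • (p - q)) = g p + s * (g p - g q) := by
  have h1 : p + s • (p - q) = (s • (p - q)) +ᵥ p := by rw [vadd_eq_add, add_comm]
  have h2 : g.linear (p - q) = g p - g q := by
    have := g.linearMap_vsub p q
    rwa [vsub_eq_sub, vsub_eq_sub] at this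
  rw [h1, g.map_vadd, map_smul, h2, vadd_eq_add, smul_eq_mul, add_comm]

theorem aff_coeff (g : Pt →ᵃ[ℝ] ℝ) : ∃ a b : ℝ, ∀ p q : Pt,
    g p - g q = a * (p - q).1 + b * (p - q).2 := by
  refine ⟨g.linear (1, 0), g.linear (0, 1), fun p q => ?_⟩
  have h2 : g.linear (p - q) = g p - g q := by
    have := g.linearMap_vsub p q
    rwa [vsub_eq_sub, vsub_eq_sub] at this
  have h3 : p - q = (p - q).1 • ((1, 0) : Pt) + (p - q).2 • ((0, 1) : Pt) := by
    apply Prod.ext <;> simp
  rw [← h2]
  conv_lhs => rw [h3]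
  rw [map_add, map_smul, map_smul, smul_eq_mul, smul_eq_mul]
  ring

theorem aff_det (g g' : Pt →ᵃ[ℝ] ℝ) {p q q' : Pt}
    (h : (p - q).1 * (p - q').2 - (p - q).2 * (p - q').1 = 0) {r r' r'' : Pt}
    (h1 : r - r' = p - q) (h2 : r - r'' = p - q') :
    (g p - g q) * (g' r - g' r'') = (g p - g q') * (g' r - g' r') := by
  obtain ⟨a, b, hab⟩ := aff_coeff g
  obtain ⟨a', b', hab'⟩ := aff_coeff g'
  rw [hab, hab, hab', hab', h1, h2]
  linear_combination (a * b' - a' * b) * h

theorem continuous_aff (g : Pt →ᵃ[ℝ] ℝ) : Continuous g :=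
  g.continuous_of_finiteDimensional

section

variable {m k : ℕ}

/-- the values of the variables -/
def X (A : Fin k → Fin m) (g : Fin k → Pt →ᵃ[ℝ] ℝ) (c : Cfg m) : Fin k → ℝ := fun i => g i (c (A i))

theorem continuous_X (A : Fin k → Fin m) (g : Fin k → Pt →ᵃ[ℝ] ℝ) : Continuous (X A g) := by
  refine continuous_pi fun i => (continuous_aff (g i)).comp (continuous_apply (A i))

/-- moving a point a little in a coordinate direction, or in all of them -/
theorem exists_move {U : Set (Fin k → ℝ)} (hU : IsOpen U) {x v : Fin k → ℝ} (hx : x ∈ U) :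
    ∃ ε : ℝ, 0 < ε ∧ x + ε • v ∈ U := by
  have h1 : ContinuousAt (fun ε : ℝ => x + ε • v) 0 := by fun_prop
  have h2 := h1.tendsto
  simp only [zero_smul, add_zero] at h2
  have h3 : ∀ᶠ ε : ℝ in 𝓝[>] 0, x + ε • v ∈ U :=
    (h2.mono_left nhdsWithin_le_nhds).eventually (hU.mem_nhds hx)
  obtain ⟨ε, h4, h5⟩ := (h3.and self_mem_nhdsWithin).exists
  exact ⟨ε, h5, h4⟩

theorem head_step {S : Sys m} {T : Set (S.I ⊕ (Fin m × Fin m))} {j k : Fin m} (h : Fam.Cl T j k)
    (hne : j ≠ k) : ∃ k', Sum.inr (j, k') ∈ T := by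
  rcases Relation.ReflTransGen.cases_head h with h | ⟨k', h, _⟩
  · exact absurd h hne
  · exact ⟨k', h⟩

open Classical in
theorem func (S : Sys m) (A : Fin k → Fin m) (hA : Function.Injective A) (C : Fin m)
    (g : Fin k → Pt →ᵃ[ℝ] ℝ) (h : Pt →ᵃ[ℝ] ℝ) (O : Set (Fin k → ℝ))
    (hO : IsOpen O) (hne : O.Nonempty) (f : (Fin k → ℝ) → ℝ) (W : Set ((Fin k → ℝ) × ℝ))
    (hW : IsOpen W) (hgr : ∀ x ∈ O, (x, f x) ∈ W)
    (hR : ∀ x ∈ O, ∀ z, (x, z) ∈ W →
      ((∃ c ∈ S.F, X A g c = x ∧ h (c C) = z) ↔ z = f x)) :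
    ∃ O' ⊆ O, IsOpen O' ∧ O'.Nonempty ∧ ∃ (l : Fin k → ℝ) (b : ℝ),
      (∀ i j, l i ≠ 0 → l j ≠ 0 → i = j) ∧ ∀ x ∈ O', f x = ∑ i, l i * x i + b := by
  have hX := continuous_X A g
  have hZ : Continuous fun c : Cfg m => h (c C) := (continuous_aff h).comp (continuous_apply C)
  set V : Set (Cfg m) := {c | X A g c ∈ O ∧ (X A g c, h (c C)) ∈ W} with hV
  have hVo : IsOpen V := (hO.preimage hX).inter (hW.preimage (hX.prodMk hZ))
  set G : Set (Cfg m) := S.F ∩ V with hG
  have hfG : ∀ c ∈ G, h (c C) = f (X A g c) := fun c hc =>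
    (hR _ hc.2.1 _ hc.2.2).1 ⟨c, hc.1, rfl, rfl⟩
  obtain ⟨T, U', h1, h2, h3, h4, h5⟩ := exists_type S.ty (X A g) G hX S.ty_near univ O hO
    (by rwa [inter_univ]) (by
      rintro x ⟨hx, _⟩
      obtain ⟨c, hc, hcx, hcz⟩ := (hR x hx (f x) (hgr x hx)).2 rfl
      refine ⟨c, ⟨hc, ?_, ?_⟩, hcx⟩
      · rw [hcx]; exact hx
      · rw [hcx, hcz]; exact hgr x hx)
  set P : Set (Cfg m) := {c | c ∈ G ∧ S.ty c = T ∧ X A g c ∈ U'} with hP
  have hlim : ∀ c w : Cfg m, Filter.Tendsto (fun ε : ℝ => c + ε • w) (𝓝[>] 0) (𝓝 c) :=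
    fun c w => Fam.tendsto_line c w
  have hf : Fam S G P T := by
    refine ⟨inter_subset_left, ?_, ?_, fun c hc => hc.1, fun c hc => hc.2.1,
      fun c hc => h5 c hc.1 hc.2.1 hc.2.2⟩
    · intro c hc d hd
      filter_upwards [(hlim c (c - d)).eventually (hVo.mem_nhds hc.2)] with ε h6 h7
      exact ⟨h7, h6⟩
    · intro c hc
      have h6 : Filter.Tendsto (fun w : Cfg m => c + w) (𝓝 0) (𝓝 c) := by
        have h7 : Continuous (fun w : Cfg m => c + w) := by fun_prop
        have h8 := h7.tendsto 0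
        simpa using h8
      filter_upwards [h6.eventually (hVo.mem_nhds hc.2)] with w h7 h8 _
      exact ⟨h8, h7⟩
  -- density
  have hdense : ∀ U'' : Set (Fin k → ℝ), IsOpen U'' → (U'' ∩ U').Nonempty →
      ∃ c ∈ P, X A g c ∈ U'' := by
    intro U'' h6 h7
    obtain ⟨c, hc1, hc2, hc3, hc4⟩ := h4 U'' h6 (by rwa [inter_univ])
    exact ⟨c, ⟨hc1, hc2, hc3⟩, hc4⟩
  obtain ⟨c, hc, _⟩ := hdense univ isOpen_univ (by
    rw [univ_inter]; rwa [inter_univ] at h3)
  have hsym := hf.sym ⟨c, hc⟩
  obtain ⟨d, hd, hdne⟩ : ∃ d ∈ P, ∀ i, X A g c i - X A g d i ≠ 0 := by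
    obtain ⟨ε, hε, h6⟩ := exists_move h1 (v := fun _ => 1) hc.2.2
    obtain ⟨d, hd, hd'⟩ := hdense {x | ∀ i, X A g c i - x i ≠ 0} (by
      have : {x : Fin k → ℝ | ∀ i, X A g c i - x i ≠ 0} =
          ⋂ i, {x : Fin k → ℝ | X A g c i - x i ≠ 0} := by ext; simp
      rw [this]
      exact isOpen_iInter_of_finite fun i => isOpen_ne_fun (by fun_prop) continuous_const)
      ⟨_, fun i => by simp [hε.ne'], h6⟩
    exact ⟨d, hd, hd'⟩
  -- different variables are in different clusters
  have hcl : ∀ i j, Fam.Cl T (A i) (A j) → i = j := by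
    intro i j hij
    by_contra hne'
    obtain ⟨k', hk'⟩ := head_step hij (fun h => hne' (hA h))
    have key : ∀ d' ∈ P, (X A g c i - X A g d i) * (X A g c j - X A g d' j) =
        (X A g c i - X A g d' i) * (X A g c j - X A g d j) := by
      intro d' hd'
      exact aff_det (g i) (g j) (hf.line hc hd hd' hk') (hf.cl_eq hc hd hij)
        (hf.cl_eq hc hd' hij)
    obtain ⟨ε, hε, h6⟩ := exists_move h1 (v := Pi.single j 1) hc.2.2
    obtain ⟨d', hd', h7⟩ := hdense {x | (X A g c i - X A g d i) * (X A g c j - x j) ≠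
        (X A g c i - x i) * (X A g c j - X A g d j)}
      (isOpen_ne_fun (by fun_prop) (by fun_prop)) ⟨_, by
        simp only [mem_ofPred_eq, Pi.add_apply, Pi.smul_apply, Pi.single_eq_same,
          Pi.single_eq_of_ne hne', smul_eq_mul, mul_one, mul_zero, add_zero, sub_self, zero_mul]
        refine mul_ne_zero (hdne i) ?_
        intro h; linarith, h6⟩
    exact h7 (key d' hd')
  -- move the clusters of the variables
  set s : (Fin k → ℝ) → Fin m → ℝ := fun t j => ∑ i, if Fam.Cl T (A i) j then t i else 0 with hs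
  have hsA : ∀ t i, s t (A i) = t i := by
    intro t i
    simp only [hs]
    rw [Finset.sum_eq_single i]
    · exact if_pos Relation.ReflTransGen.refl
    · intro j _ hj
      rw [if_neg fun h => hj (hcl j i h)]
    · intro h; exact absurd (Finset.mem_univ i) h
  set τ : (Fin k → ℝ) → Fin k → ℝ := fun x i => (x i - X A g c i) / (X A g c i - X A g d i)
    with hτ
  have hlim2 : Filter.Tendsto (fun x => s (τ x)) (𝓝 (X A g c)) (𝓝 0) := by
    have h6 : Continuous fun x => s (τ x) := by
      refine continuous_pi fun j => ?_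
      simp only [hs, hτ]
      refine continuous_finsetSum _ fun i _ => ?_
      split_ifs
      · fun_prop
      · exact continuous_const
    have h7 := h6.tendsto (X A g c)
    have h8 : s (τ (X A g c)) = 0 := by
      funext j
      simp [hs, hτ]
    rwa [h8] at h7
  have hev : ∀ᶠ x in 𝓝 (X A g c), f x = h (c C) + s (τ x) C * (h (c C) - h (d C)) := by
    filter_upwards [hlim2.eventually (hf.shiftG hc hd)] with x h6
    obtain ⟨h7, _⟩ := h6 (by
      intro j k' hjk
      simp only [hs]
      refine Finset.sum_congr rfl fun i _ => ?_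
      have := Fam.cl_step (j := A i) hsym hjk
      simp only [this])
    have h8 := hfG _ h7
    have h9 : X A g (fun j => c j + s (τ x) j • (c j - d j)) = x := by
      funext i
      show g i (c (A i) + s (τ x) (A i) • (c (A i) - d (A i))) = x i
      rw [aff_line, hsA]
      have h10 := hdne i
      show g i (c (A i)) + (x i - X A g c i) / (X A g c i - X A g d i) *
        (X A g c i - X A g d i) = x i
      rw [div_mul_cancel₀ _ h10]
      show g i (c (A i)) + (x i - g i (c (A i))) = x i
      ring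
    rw [h9, aff_line] at h8
    exact h8.symm
  obtain ⟨O₁, h6, h7, h8⟩ := mem_nhds_iff.1 hev
  refine ⟨O₁ ∩ O, inter_subset_right, h7.inter hO, ⟨_, h8, hc.1.2.1⟩,
    fun i => if Fam.Cl T (A i) C then (h (c C) - h (d C)) / (X A g c i - X A g d i) else 0,
    h (c C) - ∑ i, (if Fam.Cl T (A i) C then (h (c C) - h (d C)) / (X A g c i - X A g d i) else 0) *
      X A g c i, ?_, ?_⟩
  · intro i j hi hj
    have h9 : Fam.Cl T (A i) C := by
      by_contra h
      exact hi (if_neg h)
    have h10 : Fam.Cl T (A j) C := by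
      by_contra h
      exact hj (if_neg h)
    exact hcl i j (h9.trans (Fam.cl_symm hsym h10))
  · intro x hx
    have h9 : f x = h (c C) + s (τ x) C * (h (c C) - h (d C)) := h6 hx.1
    rw [h9]
    simp only [hs, hτ]
    rw [Finset.sum_mul]
    have h10 : ∀ i, (if Fam.Cl T (A i) C then (x i - X A g c i) / (X A g c i - X A g d i) else 0) *
        (h (c C) - h (d C)) =
        (if Fam.Cl T (A i) C then (h (c C) - h (d C)) / (X A g c i - X A g d i) else 0) * x i -
        (if Fam.Cl T (A i) C then (h (c C) - h (d C)) / (X A g c i - X A g d i) else 0) *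
          X A g c i := by
      intro i
      split_ifs
      · ring
      · ring
    rw [Finset.sum_congr rfl fun i _ => h10 i, Finset.sum_sub_distrib]
    ring

open Classical in
theorem facet (S : Sys m) (A : Fin k → Fin m) (hA : Function.Injective A)
    (g : Fin k → Pt →ᵃ[ℝ] ℝ) (l : Fin k → ℝ) (b : ℝ) (W : Set (Fin k → ℝ)) (hW : IsOpen W)
    (hne : ∃ x ∈ W, ∑ i, l i * x i = b)
    (h1 : ∀ c ∈ S.F, X A g c ∈ W → ∑ i, l i * X A g c i ≤ b)
    (h2 : ∀ x ∈ W, ∑ i, l i * x i = b → ∃ c ∈ S.F, X A g c = x) :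
    (Finset.univ.filter fun i => l i ≠ 0).card ≤ 2 := by
  by_contra hcard
  rw [not_le] at hcard
  have hX := continuous_X A g
  have third : ∀ i j : Fin k, ∃ q, l q ≠ 0 ∧ q ≠ i ∧ q ≠ j := by
    intro i j
    by_contra hcon
    have h3 : (Finset.univ.filter fun i => l i ≠ 0) ⊆ {i, j} := by
      intro q hq
      by_contra hq'
      rw [Finset.mem_insert, Finset.mem_singleton, not_or] at hq'
      exact hcon ⟨q, (Finset.mem_filter.1 hq).2, hq'.1, hq'.2⟩
    have := Finset.card_le_card h3
    have := Finset.card_le_two (a := i) (b := j)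
    omega
  set L : (Fin k → ℝ) → ℝ := fun x => ∑ i, l i * x i with hL
  have hLadd : ∀ x y : Fin k → ℝ, L (x + y) = L x + L y := by
    intro x y
    simp only [hL, Pi.add_apply, mul_add, Finset.sum_add_distrib]
  have hLsmul : ∀ (a : ℝ) (x : Fin k → ℝ), L (a • x) = a * L x := by
    intro a x
    simp only [hL, Pi.smul_apply, smul_eq_mul, Finset.mul_sum]
    exact Finset.sum_congr rfl fun i _ => by ring
  have hLsingle : ∀ i (a : ℝ), L (Pi.single i a) = l i * a := by
    intro i a
    simp only [hL]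
    rw [Finset.sum_eq_single i]
    · rw [Pi.single_eq_same]
    · intro j _ hj
      rw [Pi.single_eq_of_ne hj, mul_zero]
    · intro h; exact absurd (Finset.mem_univ i) h
  set H : Set (Fin k → ℝ) := {x | L x = b} with hH
  set G : Set (Cfg m) := {c | c ∈ S.F ∧ X A g c ∈ W ∧ L (X A g c) = b} with hG
  obtain ⟨T, U', u1, u2, u3, u4, u5⟩ := exists_type S.ty (X A g) G hX S.ty_near H W hW
    (by obtain ⟨x, hx, hxb⟩ := hne; exact ⟨x, hx, hxb⟩) (by
      rintro x ⟨hx, hxb⟩
      obtain ⟨c, hc, hcx⟩ := h2 x hx hxb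
      refine ⟨c, ⟨hc, ?_, ?_⟩, hcx⟩
      · rw [hcx]; exact hx
      · rw [hcx]; exact hxb)
  set P : Set (Cfg m) := {c | c ∈ G ∧ S.ty c = T ∧ X A g c ∈ U'} with hP
  have hVo : IsOpen {c : Cfg m | X A g c ∈ W} := hW.preimage hX
  have hf : Fam S G P T := by
    refine ⟨fun c hc => hc.1, ?_, ?_, fun c hc => hc.1, fun c hc => hc.2.1,
      fun c hc => u5 c hc.1 hc.2.1 hc.2.2⟩
    · intro c hc d hd
      filter_upwards [(Fam.tendsto_line c (c - d)).eventually (hVo.mem_nhds hc.2.1)] with ε h6 h7
      refine ⟨h7, h6, ?_⟩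
      have e1 : X A g (c + ε • (c - d)) = X A g c + ε • (X A g c - X A g d) := by
        funext i
        show g i (c (A i) + ε • (c (A i) - d (A i))) = _
        rw [aff_line]
        rfl
      have e2 : L (X A g c - X A g d) = 0 := by
        have e3 := hLadd (X A g c - X A g d) (X A g d)
        rw [sub_add_cancel, hc.2.2, hd.2.2] at e3
        linarith
      rw [e1, hLadd, hLsmul, e2, hc.2.2]
      ring
    · intro c hc
      have h6 : Filter.Tendsto (fun w : Cfg m => c + w) (𝓝 0) (𝓝 c) := by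
        have h7 : Continuous (fun w : Cfg m => c + w) := by fun_prop
        have h8 := h7.tendsto 0
        simpa using h8
      have h6' : Filter.Tendsto (fun w : Cfg m => c - w) (𝓝 0) (𝓝 c) := by
        have h7 : Continuous (fun w : Cfg m => c - w) := by fun_prop
        have h8 := h7.tendsto 0
        simpa using h8
      filter_upwards [h6.eventually (hVo.mem_nhds hc.2.1), h6'.eventually (hVo.mem_nhds hc.2.1)]
        with w h7 h7' h8 h9
      have e1 : X A g (c + w) + X A g (c - w) = (2 : ℝ) • X A g c := by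
        funext i
        show g i (c (A i) + w (A i)) + g i (c (A i) - w (A i)) = 2 * g i (c (A i))
        obtain ⟨a, a', ha⟩ := aff_coeff (g i)
        have e2 := ha (c (A i) + w (A i)) (c (A i))
        have e3 := ha (c (A i) - w (A i)) (c (A i))
        simp only [add_sub_cancel_left, sub_sub_cancel_left, Prod.fst_neg, Prod.snd_neg] at e2 e3
        linarith
      have e2 : L (X A g (c + w)) + L (X A g (c - w)) = 2 * b := by
        rw [← hLadd, e1, hLsmul, hc.2.2]
      have e3 : L (X A g (c + w)) ≤ b := h1 _ h8 h7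
      have e4 : L (X A g (c - w)) ≤ b := h1 _ h9 h7'
      exact ⟨h8, h7, by linarith⟩
  have hdense : ∀ U'' : Set (Fin k → ℝ), IsOpen U'' → (U'' ∩ (U' ∩ H)).Nonempty →
      ∃ c ∈ P, X A g c ∈ U'' := by
    intro U'' h6 h7
    obtain ⟨c, hc1, hc2, hc3, hc4⟩ := u4 U'' h6 h7
    exact ⟨c, ⟨hc1, hc2, hc3⟩, hc4⟩
  obtain ⟨c, hc, _⟩ := hdense univ isOpen_univ (by rwa [univ_inter])
  have hsym := hf.sym ⟨c, hc⟩
  -- moving along the hyperplane
  have hmove : ∀ (v : Fin k → ℝ), L v = 0 → ∀ φ : (Fin k → ℝ) → Prop, IsOpen {x | φ x} →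
      (∀ ε : ℝ, 0 < ε → φ (X A g c + ε • v)) → ∃ d ∈ P, φ (X A g d) := by
    intro v hv φ hφ hφv
    obtain ⟨ε, hε, h6⟩ := exists_move u1 (v := v) hc.2.2
    refine hdense {x | φ x} hφ ⟨_, hφv ε hε, h6, ?_⟩
    show L (X A g c + ε • v) = b
    rw [hLadd, hLsmul, hv, hc.1.2.2]
    ring
  obtain ⟨i, hi, _⟩ := third ⟨0, by
    rcases Nat.eq_zero_or_pos k with h | h
    · subst h
      simp at hcard
    · exact h⟩ ⟨0, by
    rcases Nat.eq_zero_or_pos k with h | h
    · subst h
      simp at hcard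
    · exact h⟩
  have hvec : ∀ i q : Fin k, l q ≠ 0 → L (Pi.single i 1 - Pi.single q (l i / l q)) = 0 := by
    intro i q hq
    have e1 := hLadd (Pi.single i 1 - Pi.single q (l i / l q)) (Pi.single q (l i / l q))
    rw [sub_add_cancel, hLsingle, hLsingle] at e1
    have e2 : l q * (l i / l q) = l i := by field_simp
    rw [e2] at e1
    linarith
  -- a point of the family where the variable `i` has a different value
  obtain ⟨d, hd, hdi⟩ : ∃ d ∈ P, X A g d i ≠ X A g c i := by
    obtain ⟨q, hq, hqi, _⟩ := third i i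
    refine hmove (Pi.single i 1 - Pi.single q (l i / l q)) (hvec i q hq)
      (fun x => x i ≠ X A g c i) (isOpen_ne_fun (by fun_prop) continuous_const) ?_
    intro ε hε
    simp only [Pi.add_apply, Pi.smul_apply, Pi.sub_apply, Pi.single_eq_same,
      Pi.single_eq_of_ne (Ne.symm hqi), sub_zero, smul_eq_mul, mul_one]
    intro h; linarith
  -- some other variable is in the same cluster
  obtain ⟨j, hj, hji, hij⟩ : ∃ j, l j ≠ 0 ∧ j ≠ i ∧ Fam.Cl T (A i) (A j) := by
    by_contra hcon
    have hcon : ∀ j, l j ≠ 0 → j ≠ i → ¬ Fam.Cl T (A i) (A j) := by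
      intro j h6 h7 h8
      exact hcon ⟨j, h6, h7, h8⟩
    set s : ℝ → Fin m → ℝ := fun t j => if Fam.Cl T (A i) j then t else 0 with hs
    have hlim2 : Filter.Tendsto s (𝓝 0) (𝓝 0) := by
      have h6 : Continuous s := by
        refine continuous_pi fun j => ?_
        simp only [hs]
        split_ifs
        · exact continuous_id
        · exact continuous_const
      have h7 := h6.tendsto 0
      have h8 : s 0 = 0 := by
        funext j
        simp [hs]
      rwa [h8] at h7
    have hXs : ∀ t : ℝ, L (X A g (fun j => c j + s t j • (c j - d j))) =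
        b + t * (l i * (X A g c i - X A g d i)) := by
      intro t
      have e1 : ∀ j, l j * X A g (fun j => c j + s t j • (c j - d j)) j =
          l j * X A g c j + if j = i then t * (l i * (X A g c i - X A g d i)) else 0 := by
        intro j
        show l j * g j (c (A j) + s t (A j) • (c (A j) - d (A j))) = _
        rw [aff_line]
        by_cases hji : j = i
        · subst hji
          have e2 : s t (A j) = t := if_pos Relation.ReflTransGen.refl
          rw [e2, if_pos rfl]
          show l j * (g j (c (A j)) + t * (g j (c (A j)) - g j (d (A j)))) =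
            l j * g j (c (A j)) + t * (l j * (g j (c (A j)) - g j (d (A j))))
          ring
        · rw [if_neg hji, add_zero]
          by_cases hlj : l j = 0
          · rw [hlj, zero_mul, zero_mul]
          · have e2 : s t (A j) = 0 := if_neg (hcon j hlj hji)
            rw [e2, zero_mul, add_zero]
            rfl
      simp only [hL]
      rw [Finset.sum_congr rfl fun j _ => e1 j, Finset.sum_add_distrib,
        Finset.sum_ite_eq' Finset.univ i, if_pos (Finset.mem_univ i)]
      have := hc.1.2.2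
      simp only [hL] at this
      rw [this]
    have hlimW : Filter.Tendsto (fun t => (fun j => c j + s t j • (c j - d j) : Cfg m))
        (𝓝 (0 : ℝ)) (𝓝 c) := by
      have h6 : Continuous (fun u : Fin m → ℝ => (fun j => c j + u j • (c j - d j) : Cfg m)) := by
        fun_prop
      have h7 := (h6.tendsto 0).comp hlim2
      simp only [Function.comp_def, Pi.zero_apply, zero_smul, add_zero] at h7
      exact h7
    have hev : ∀ᶠ t in 𝓝 (0 : ℝ), t * (l i * (X A g c i - X A g d i)) ≤ 0 := by
      filter_upwards [hlim2.eventually (hf.shift hc hd), hlimW.eventually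
        (hVo.mem_nhds hc.1.2.1)] with t h6 h7
      have h8 := h6 (by
        intro j k' hjk
        simp only [hs]
        have := Fam.cl_step (j := A i) hsym hjk
        simp only [this])
      have h9 := h1 _ h8 h7
      have h10 := hXs t
      simp only [hL] at h10
      rw [h10] at h9
      linarith
    have hne' : l i * (X A g c i - X A g d i) ≠ 0 :=
      mul_ne_zero hi (sub_ne_zero.2 (Ne.symm hdi))
    have hneg : Filter.Tendsto (fun t : ℝ => -t) (𝓝 0) (𝓝 0) := by
      have := (continuous_neg (G := ℝ)).tendsto 0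
      simpa using this
    have hev2 := hev.and (hneg.eventually hev)
    have hev3 : ∀ᶠ t in 𝓝[>] (0 : ℝ), t * (l i * (X A g c i - X A g d i)) ≤ 0 ∧
        -t * (l i * (X A g c i - X A g d i)) ≤ 0 := hev2.filter_mono nhdsWithin_le_nhds
    obtain ⟨t, ⟨h6, h7⟩, h8⟩ := (hev3.and self_mem_nhdsWithin).exists
    have h8 : 0 < t := h8
    have h9 : t * (l i * (X A g c i - X A g d i)) = 0 := by linarith
    rcases mul_eq_zero.1 h9 with h | h
    · exact h8.ne' h
    · exact hne' h
  obtain ⟨k', hk'⟩ := head_step hij (fun h => hji (hA h).symm)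
  obtain ⟨q, hq, hqi, hqj⟩ := third i j
  obtain ⟨d', hd', h6⟩ := hmove (Pi.single j 1 - Pi.single q (l j / l q)) (hvec j q hq)
    (fun x => (X A g c i - X A g d i) * (X A g c j - x j) ≠
        (X A g c i - x i) * (X A g c j - X A g d j))
    (isOpen_ne_fun (by fun_prop) (by fun_prop)) (by
      intro ε hε
      simp only [Pi.add_apply, Pi.smul_apply, Pi.sub_apply, Pi.single_eq_same,
        Pi.single_eq_of_ne (Ne.symm hqi), Pi.single_eq_of_ne (Ne.symm hqj),
        Pi.single_eq_of_ne (Ne.symm hji), sub_zero, smul_eq_mul, mul_one, mul_zero, add_zero,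
        sub_self, zero_mul]
      refine mul_ne_zero (sub_ne_zero.2 (Ne.symm hdi)) ?_
      intro h; linarith)
  exact h6 (aff_det (g i) (g j) (hf.line hc hd hd' hk') (hf.cl_eq hc hd hij)
    (hf.cl_eq hc hd' hij))

end

end Pool.Agent.Helper97.UDP.Gad
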