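import Pool.Agent.Helper97.UDP.Pigeon
import Pool.Agent.Helper69.UDP.Gadget

/-!
# A packing gives a balanced sum
-/

set_option autoImplicit false

namespace Pool.Agent.Helper97.UDP

open Pool.Agent.Helper20.Flip

namespace Par

variable {P : Par}

theorem gadget_apply {p : ℕ → Pt} (hp : ∀ k, k < 7 * P.m + 1 → disk (p k) ⊆ P.Reg ∧ P.InCell k (p k))
    (hd : ∀ k l, k < 7 * P.m + 1 → l < 7 * P.m + 1 → k ≠ l →
      4 ≤ ((p k).1 - (p l).1) ^ 2 + ((p k).2 - (p l).2) ^ 2) {j : ℕ} (hj : j < P.m) :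
    ∃ ε : ℤ, (ε = 1 ∨ ε = -1) ∧
      30 / 7 * √3 + |(p (7 * j)).2 + (p (7 * (j + 1))).2 + ε * (P.γ j / 2)| / √3 - 1000 * P.τ ^ 2 ≤
        (p (7 * (j + 1))).1 - (p (7 * j)).1 := by
  have hG := P.G_bounds
  have hτ := P.hτ0
  have hτ' := P.hτ
  norm_num at hG hτ'
  have hγ0 := P.γ_nonneg j
  have hγ := P.γ_le hj
  obtain ⟨c0, i0⟩ := hp (7 * j) (by omega)
  obtain ⟨c1, i1⟩ := hp (7 * j + 1) (by omega)
  obtain ⟨c2, i2⟩ := hp (7 * j + 2) (by omega)
  obtain ⟨c3, i3⟩ := hp (7 * j + 3) (by omega)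
  obtain ⟨c4, i4⟩ := hp (7 * j + 4) (by omega)
  obtain ⟨c5, i5⟩ := hp (7 * j + 5) (by omega)
  obtain ⟨c6, i6⟩ := hp (7 * j + 6) (by omega)
  obtain ⟨c7, i7⟩ := hp (7 * (j + 1)) (by omega)
  have e0 := i0.1 (by omega)
  have e1 := i1.2.1 (by omega)
  have e2 := i2.2.2.1 (by omega)
  have e3 := i3.2.2.2.1 (by omega)
  have e4 := i4.2.2.2.2.1 (by omega)
  have e5 := i5.2.2.2.2.2.1 (by omega)
  have e6 := i6.2.2.2.2.2.2 (by omega)
  have e7 := i7.1 (by omega)
  rw [show 7 * j / 7 = j by omega] at e0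
  rw [show (7 * j + 1) / 7 = j by omega] at e1
  rw [show (7 * j + 2) / 7 = j by omega] at e2
  rw [show (7 * j + 3) / 7 = j by omega] at e3
  rw [show (7 * j + 4) / 7 = j by omega] at e4
  rw [show (7 * j + 5) / 7 = j by omega] at e5
  rw [show (7 * j + 6) / 7 = j by omega] at e6
  rw [show 7 * (j + 1) / 7 = j + 1 by omega] at e7
  have n0 := (neck_pos c0 hj.le e0.1 e0.2).1
  have n7 := (neck_pos c7 (show j + 1 ≤ P.m by omega) e7.1 e7.2).1
  have g1 := gad_pos c1 hj e1.1 (by have := e1.2.1; norm_num at this; linarith)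
  have g2 := gad_pos c2 hj e2.1 (by have := e2.2.1; norm_num at this; linarith)
  have g3 := gad_pos c3 hj (by have := e3.1; norm_num at this; linarith)
    (by have := e3.2.1; norm_num at this; linarith)
  have g4 := gad_pos c4 hj (by have := e4.1; norm_num at this; linarith)
    (by have := e4.2.1; norm_num at this; linarith)
  have g5 := gad_pos c5 hj (by have := e5.1; norm_num at this; linarith) e5.2.1
  have g6 := gad_pos c6 hj (by have := e6.1; norm_num at this; linarith) e6.2.1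
  have v1 := abs_le.1 (g1.2.2.2.1 e1.2.1)
  have v2 := abs_le.1 (g2.2.2.2.1 e2.2.1)
  have v3 := abs_le.1 g3.2.2.1
  have v4 := abs_le.1 g4.2.2.1
  have v5 := abs_le.1 (g5.2.2.2.2 e5.1)
  have v6 := abs_le.1 (g6.2.2.2.2 e6.1)
  have d01 := hd (7 * j) (7 * j + 1) (by omega) (by omega) (by omega)
  have d02 := hd (7 * j) (7 * j + 2) (by omega) (by omega) (by omega)
  have d13 := hd (7 * j + 1) (7 * j + 3) (by omega) (by omega) (by omega)
  have d24 := hd (7 * j + 2) (7 * j + 4) (by omega) (by omega) (by omega)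
  have d35 := hd (7 * j + 3) (7 * j + 5) (by omega) (by omega) (by omega)
  have d46 := hd (7 * j + 4) (7 * j + 6) (by omega) (by omega) (by omega)
  have d57 := hd (7 * j + 5) (7 * (j + 1)) (by omega) (by omega) (by omega)
  have d67 := hd (7 * j + 6) (7 * (j + 1)) (by omega) (by omega) (by omega)
  have d12 := hd (7 * j + 1) (7 * j + 2) (by omega) (by omega) (by omega)
  have d56 := hd (7 * j + 5) (7 * j + 6) (by omega) (by omega) (by omega)
  have d34 := hd (7 * j + 3) (7 * j + 4) (by omega) (by omega) (by omega)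
  have gx1 := g1.1
  have gx2 := g2.1
  have gx5 := g5.2.1
  have gx6 := g6.2.1
  have ex1 := e1.2.1
  have ex2 := e2.2.1
  have ex3 := e3.1
  have ex3' := e3.2.1
  have ex4 := e4.1
  have ex4' := e4.2.1
  have ex5 := e5.1
  have ex6 := e6.1
  have ex7 := e7.1
  push_cast at ex7
  norm_num at gx1 gx2 gx5 gx6 ex1 ex2 ex3 ex3' ex4 ex4' ex5 ex6
  generalize p (7 * j) = M at *
  generalize p (7 * j + 1) = T1 at *
  generalize p (7 * j + 2) = B1 at *
  generalize p (7 * j + 3) = U at *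
  generalize p (7 * j + 4) = L at *
  generalize p (7 * j + 5) = T2 at *
  generalize p (7 * j + 6) = B2 at *
  generalize p (7 * (j + 1)) = M' at *
  have key := gadget (τ := P.τ) (γ := P.γ j) (v := M.2) (v' := M'.2) (s := M'.1 - M.1)
    (a1 := T1.1 - M.1) (y1 := T1.2) (b1 := B1.1 - M.1) (z1 := -B1.2) (p := U.1 - M.1)
    (yp := U.2) (q := L.1 - M.1) (yq := -L.2) (a2 := M'.1 - T2.1) (y2 := T2.2)
    (b2 := M'.1 - B2.1) (z2 := -B2.2) hτ P.hτ hγ0 hγ n0 n7 ⟨e1.2.2, v1.2⟩
    ⟨by linarith [e2.2.2], by linarith [v2.1]⟩ ⟨e5.2.2, v5.2⟩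
    ⟨by linarith [e6.2.2], by linarith [v6.1]⟩ ⟨e3.2.2, v3.2⟩
    ⟨by linarith [e4.2.2], by linarith [v4.1]⟩ (by linarith [e0.2]) (by linarith [e0.2])
    (by linarith) (by linarith) (by linarith) (by linarith) (by linarith)
    (by linarith) (by linarith) (by linarith) (by linarith) (by linarith) (by linarith)
    (by linarith) (by linarith) (by linarith) (by linarith) (by linarith) (by linarith)
  rcases key with h | h
  · exact ⟨1, Or.inl rfl, by push_cast; rw [one_mul]; exact h⟩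
  · refine ⟨-1, Or.inr rfl, ?_⟩
    push_cast
    rw [show M.2 + M'.2 + -1 * (P.γ j / 2) = M.2 + M'.2 - P.γ j / 2 by ring]
    exact h

theorem alt_sum (v : ℕ → ℝ) (m : ℕ) :
    ∑ j ∈ Finset.range m, (-1 : ℝ) ^ j * (v j + v (j + 1)) = v 0 - (-1) ^ m * v m := by
  induction m with
  | zero => simp
  | succ m ih =>
    rw [Finset.sum_range_succ, ih, pow_succ]
    ring

end Par

/-- C -/
theorem balanced_of_rpacks (P : Par) (h : P.RPacks) : P.Balanced := by
  obtain ⟨p, hp, hd⟩ := Par.exists_centres h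
  have hs3 : 0 < √3 := Real.sqrt_pos.2 (by norm_num)
  have hex : ∀ j, ∃ ε : ℤ, (ε = 1 ∨ ε = -1) ∧ (j < P.m →
      30 / 7 * √3 + |(p (7 * j)).2 + (p (7 * (j + 1))).2 + ε * (P.γ j / 2)| / √3 - 1000 * P.τ ^ 2 ≤
        (p (7 * (j + 1))).1 - (p (7 * j)).1) := by
    intro j
    by_cases hj : j < P.m
    · obtain ⟨ε, h1, h2⟩ := Par.gadget_apply hp hd hj
      exact ⟨ε, h1, fun _ => h2⟩
    · exact ⟨1, Or.inl rfl, fun h => absurd h hj⟩
  choose ε hε hε' using hex
  refine ⟨fun j => (-1) ^ j * ε j, ?_, ?_⟩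
  · intro j
    rcases neg_one_pow_eq_or ℤ j with h1 | h1 <;> rcases hε j with h2 | h2 <;> simp [h1, h2]
  · set v : ℕ → ℝ := fun j => (p (7 * j)).2 with hv
    have hv0 : v 0 = 0 := by
      have h1 := hp 0 (by omega)
      have h2 := h1.2.1 (by norm_num)
      exact (Par.neck_pos h1.1 (j := 0) (Nat.zero_le _) (by simpa using h2.1)
        (by simpa using h2.2)).2 (Or.inl rfl)
    have hvm : v P.m = 0 := by
      have h1 := hp (7 * P.m) (by omega)
      have h2 := h1.2.1 (by omega)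
      rw [show 7 * P.m / 7 = P.m by omega] at h2
      exact (Par.neck_pos h1.1 (j := P.m) (le_refl _) h2.1 h2.2).2 (Or.inr rfl)
    have hsum : ∑ j ∈ Finset.range P.m, |v j + v (j + 1) + ε j * (P.γ j / 2)| < P.η / 2 := by
      refine lt_of_le_of_lt ?_ P.herr
      have h1 : ∑ j ∈ Finset.range P.m, (30 / 7 * √3 + |v j + v (j + 1) + ε j * (P.γ j / 2)| / √3 -
          1000 * P.τ ^ 2) ≤ ∑ j ∈ Finset.range P.m, ((p (7 * (j + 1))).1 - (p (7 * j)).1) :=
        Finset.sum_le_sum fun j hj => hε' j (Finset.mem_range.1 hj)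
      rw [Finset.sum_range_sub (fun j => (p (7 * j)).1) P.m, Finset.sum_sub_distrib,
        Finset.sum_add_distrib] at h1
      simp only [Finset.sum_const, Finset.card_range, nsmul_eq_mul] at h1
      rw [← Finset.sum_div] at h1
      have h2 := (Par.cx_bounds (hp 0 (by omega)).1).1
      have h3 := (Par.cx_bounds (hp (7 * P.m) (by omega)).1).2
      have hGr : P.G = 30 / 7 * P.r := rfl
      rw [mul_zero] at h1
      have h4 : (∑ j ∈ Finset.range P.m, |v j + v (j + 1) + ε j * (P.γ j / 2)|) / √3 ≤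
          P.m * (30 / 7 * (P.r - √3) + 1000 * P.τ ^ 2) := by
        rw [hGr] at h3
        linarith
      rw [div_le_iff₀ hs3] at h4
      linarith
    have habs : |∑ j ∈ Finset.range P.m, (-1 : ℝ) ^ j * (v j + v (j + 1) + ε j * (P.γ j / 2))| <
        P.η / 2 := by
      refine lt_of_le_of_lt (Finset.abs_sum_le_sum_abs _ _) (lt_of_le_of_lt ?_ hsum)
      refine Finset.sum_le_sum fun j _ => ?_
      rw [abs_mul, abs_pow, abs_neg, abs_one, one_pow, one_mul]
    have heq : ∑ j ∈ Finset.range P.m, (-1 : ℝ) ^ j * (v j + v (j + 1) + ε j * (P.γ j / 2)) =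
        ((∑ j ∈ Finset.range P.m, (-1) ^ j * ε j * P.w j : ℤ) : ℝ) * (P.η / 2) := by
      have h1 : ∀ j, (-1 : ℝ) ^ j * (v j + v (j + 1) + ε j * (P.γ j / 2)) =
          (-1 : ℝ) ^ j * (v j + v (j + 1)) + ((-1 : ℝ) ^ j * ε j * P.w j) * (P.η / 2) := by
        intro j
        unfold Par.γ
        ring
      rw [Finset.sum_congr rfl fun j _ => h1 j, Finset.sum_add_distrib, Par.alt_sum, hv0, hvm,
        ← Finset.sum_mul]
      push_cast
      ring
    rw [heq, abs_mul, abs_of_pos (show 0 < P.η / 2 by linarith [P.hη])] at habs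
    have hlt : |((∑ j ∈ Finset.range P.m, (-1) ^ j * ε j * P.w j : ℤ) : ℝ)| < 1 := by
      have hη := P.hη
      by_contra hge
      push Not at hge
      nlinarith
    have hlt' : |(∑ j ∈ Finset.range P.m, (-1) ^ j * ε j * P.w j : ℤ)| < 1 := by
      exact_mod_cast hlt
    exact Int.abs_lt_one_iff.1 hlt'

end Pool.Agent.Helper97.UDP
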