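import Pool.Agent.Helper97.UDP.Defs

/-!
# The parameters of the construction
-/

set_option autoImplicit false

namespace Pool.Agent.Helper97.UDP

open Pool.Agent.Helper20.Flip

/-- The parameters. -/
structure Par where
  m : ℕ
  w : ℕ → ℕ
  η : ℝ
  τ : ℝ
  r : ℝ
  hm : 1 ≤ m
  hη : 0 < η
  hτ0 : 0 < τ
  hτ : τ ≤ 1 / 2 ^ 14
  hw : (∑ j ∈ Finset.range m, (w j : ℝ)) * η ≤ 2 * τ
  hr : √3 ≤ r
  hr' : r ≤ √3 + 1 / 2 ^ 14
  herr : √3 * (m * (30 / 7 * (r - √3) + 1000 * τ ^ 2)) < η / 2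

namespace Par

variable (P : Par)

noncomputable def γ (j : ℕ) : ℝ := P.w j * P.η

/-- the length of one gadget -/
noncomputable def G : ℝ := 30 / 7 * P.r

/-- the number of steps -/
def K : ℕ := 6 * P.m + 1

/-- the breakpoints `bx 0 < bx 1 < … < bx K` -/
noncomputable def bx (i : ℕ) : ℝ :=
  if i = 0 then -1 else if i = 6 * P.m + 1 then P.m * P.G + 1 else
  if i % 6 = 0 then (i / 6 : ℕ) * P.G - 3 / 5
  else if i % 6 = 1 then (i / 6 : ℕ) * P.G + 3 / 5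
  else if i % 6 = 2 then (i / 6 : ℕ) * P.G + 7 / 10
  else if i % 6 = 3 then (i / 6 : ℕ) * P.G + (15 / 7 * P.r - 3 / 4)
  else if i % 6 = 4 then (i / 6 : ℕ) * P.G + (15 / 7 * P.r + 3 / 4)
  else (i / 6 : ℕ) * P.G + (P.G - 7 / 10)

/-- the heights of the steps: the region is `|y| ≤ ht i` for `bx i ≤ x ≤ bx (i + 1)` -/
noncomputable def ht (i : ℕ) : ℝ :=
  if i % 6 = 0 then (if i = 0 ∨ i = 6 * P.m then 1 else 5 / 4)
  else if i % 6 = 1 then 4 / 5 + P.τ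
  else if i % 6 = 2 then 2 + P.γ (i / 6)
  else if i % 6 = 3 then 16 / 7 - 4 * P.γ (i / 6)
  else if i % 6 = 4 then 2 + P.γ (i / 6)
  else 4 / 5 + P.τ

/-- the region -/
def Reg : Set Pt := {p | ∃ i, i < P.K ∧ P.bx i ≤ p.1 ∧ p.1 ≤ P.bx (i + 1) ∧ |p.2| ≤ P.ht i}

/-- a signed sum of the weights vanishes -/
def Balanced : Prop :=
  ∃ ε : ℕ → ℤ, (∀ j, ε j = 1 ∨ ε j = -1) ∧ ∑ j ∈ Finset.range P.m, ε j * P.w j = 0

/-- `7 m + 1` disks can be packed into the region -/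
def RPacks : Prop :=
  ∃ c : Fin (7 * P.m + 1) → Pt, (∀ i, disk (c i) ⊆ P.Reg) ∧
    ∀ i j, i ≠ j → 4 ≤ ((c i).1 - (c j).1) ^ 2 + ((c i).2 - (c j).2) ^ 2

end Par

/-- `V` lists the vertices of the step polygon with breakpoints `x 0, …, x K` and heights
`h 0, …, h (K-1)`: first the lower chain from left to right, then the upper chain from right to
left. -/
def StepVerts (K : ℕ) (x h : ℕ → ℝ) {n : ℕ} (V : ZMod n → Pt) : Prop :=
  n = 4 * K ∧ (∀ k < 2 * K, V (k : ℕ) = (x ((k + 1) / 2), -h (k / 2))) ∧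
  ∀ k < 2 * K, V ((4 * K - 1 - k : ℕ)) = (x ((k + 1) / 2), h (k / 2))

end Pool.Agent.Helper97.UDP
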