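import Pool.Agent.Helper97.UDP.Cells

/-!
# The pigeonhole principle
-/

set_option autoImplicit false

namespace Pool.Agent.Helper97.UDP

open Pool.Agent.Helper20.Flip

namespace Par

variable (P : Par)

/-- the cells -/
def InCell (k : ℕ) (c : Pt) : Prop :=
  (k % 7 = 0 → (k / 7 : ℕ) * P.G - 3 / 5 ≤ c.1 ∧ c.1 ≤ (k / 7 : ℕ) * P.G + 3 / 5) ∧
  (k % 7 = 1 → (k / 7 : ℕ) * P.G + 3 / 5 < c.1 ∧ c.1 ≤ (k / 7 : ℕ) * P.G + 2.96 ∧ 0 ≤ c.2) ∧
  (k % 7 = 2 → (k / 7 : ℕ) * P.G + 3 / 5 < c.1 ∧ c.1 ≤ (k / 7 : ℕ) * P.G + 2.96 ∧ c.2 ≤ 0) ∧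
  (k % 7 = 3 → (k / 7 : ℕ) * P.G + 2.96 < c.1 ∧
    c.1 ≤ (k / 7 : ℕ) * P.G + (P.G - 2.96) ∧ 0 ≤ c.2) ∧
  (k % 7 = 4 → (k / 7 : ℕ) * P.G + 2.96 < c.1 ∧
    c.1 ≤ (k / 7 : ℕ) * P.G + (P.G - 2.96) ∧ c.2 ≤ 0) ∧
  (k % 7 = 5 → (k / 7 : ℕ) * P.G + (P.G - 2.96) < c.1 ∧
    c.1 < (k / 7 : ℕ) * P.G + (P.G - 3 / 5) ∧ 0 ≤ c.2) ∧
  (k % 7 = 6 → (k / 7 : ℕ) * P.G + (P.G - 2.96) < c.1 ∧
    c.1 < (k / 7 : ℕ) * P.G + (P.G - 3 / 5) ∧ c.2 ≤ 0)

variable {P}

theorem exists_cell {c : Pt} (hc : disk c ⊆ P.Reg) : ∃ k, k < 7 * P.m + 1 ∧ P.InCell k c := by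
  obtain ⟨h1, h2⟩ := cx_bounds hc
  have hG := P.G_bounds
  norm_num at hG
  have hG0 : 0 < P.G := by linarith
  set j := ⌊(c.1 + 3 / 5) / P.G⌋₊ with hj
  have hj1 : (j : ℝ) * P.G ≤ c.1 + 3 / 5 := by
    rw [← le_div_iff₀ hG0]
    exact Nat.floor_le (by positivity)
  have hj2 : c.1 + 3 / 5 < (j + 1 : ℝ) * P.G := by
    rw [← div_lt_iff₀ hG0]
    exact Nat.lt_floor_add_one _
  have hjm : j ≤ P.m := by
    by_contra hlt
    push Not at hlt
    have h3 : ((P.m + 1 : ℕ) : ℝ) ≤ j := by exact_mod_cast hlt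
    push_cast at h3
    nlinarith
  rcases le_or_gt c.1 (j * P.G + 3 / 5) with h | h
  · refine ⟨7 * j, by omega, ?_⟩
    unfold InCell
    rw [show 7 * j / 7 = j by omega, show 7 * j % 7 = 0 by omega]
    refine ⟨fun _ => ⟨by linarith, h⟩, ?_, ?_, ?_, ?_, ?_, ?_⟩ <;> intro h <;>
      exact absurd h (by norm_num)
  · have hjm' : j < P.m := by
      rcases lt_or_eq_of_le hjm with h3 | h3
      · exact h3
      · rw [h3] at h; linarith
    rcases le_or_gt c.1 (j * P.G + 2.96) with h3 | h3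
    · rcases le_total 0 c.2 with h4 | h4
      · refine ⟨7 * j + 1, by omega, ?_⟩
        unfold InCell
        rw [show (7 * j + 1) / 7 = j by omega, show (7 * j + 1) % 7 = 1 by omega]
        refine ⟨?_, fun _ => ⟨h, h3, h4⟩, ?_, ?_, ?_, ?_, ?_⟩ <;> intro h <;>
          exact absurd h (by norm_num)
      · refine ⟨7 * j + 2, by omega, ?_⟩
        unfold InCell
        rw [show (7 * j + 2) / 7 = j by omega, show (7 * j + 2) % 7 = 2 by omega]
        refine ⟨?_, ?_, fun _ => ⟨h, h3, h4⟩, ?_, ?_, ?_, ?_⟩ <;> intro h <;>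
          exact absurd h (by norm_num)
    · rcases le_or_gt c.1 (j * P.G + (P.G - 2.96)) with h5 | h5
      · rcases le_total 0 c.2 with h4 | h4
        · refine ⟨7 * j + 3, by omega, ?_⟩
          unfold InCell
          rw [show (7 * j + 3) / 7 = j by omega, show (7 * j + 3) % 7 = 3 by omega]
          refine ⟨?_, ?_, ?_, fun _ => ⟨h3, h5, h4⟩, ?_, ?_, ?_⟩ <;> intro h <;>
            exact absurd h (by norm_num)
        · refine ⟨7 * j + 4, by omega, ?_⟩
          unfold InCell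
          rw [show (7 * j + 4) / 7 = j by omega, show (7 * j + 4) % 7 = 4 by omega]
          refine ⟨?_, ?_, ?_, ?_, fun _ => ⟨h3, h5, h4⟩, ?_, ?_⟩ <;> intro h <;>
            exact absurd h (by norm_num)
      · have h6 : c.1 < j * P.G + (P.G - 3 / 5) := by linarith
        rcases le_total 0 c.2 with h4 | h4
        · refine ⟨7 * j + 5, by omega, ?_⟩
          unfold InCell
          rw [show (7 * j + 5) / 7 = j by omega, show (7 * j + 5) % 7 = 5 by omega]
          refine ⟨?_, ?_, ?_, ?_, ?_, fun _ => ⟨h5, h6, h4⟩, ?_⟩ <;> intro h <;>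
            exact absurd h (by norm_num)
        · refine ⟨7 * j + 6, by omega, ?_⟩
          unfold InCell
          rw [show (7 * j + 6) / 7 = j by omega, show (7 * j + 6) % 7 = 6 by omega]
          refine ⟨?_, ?_, ?_, ?_, ?_, ?_, fun _ => ⟨h5, h6, h4⟩⟩ <;> intro h <;>
            exact absurd h (by norm_num)

theorem dist_lt {x y x' y' a b : ℝ} (h1 : |x - x'| ≤ a) (h2 : |y - y'| ≤ b)
    (h3 : a ^ 2 + b ^ 2 < 4) : (x - x') ^ 2 + (y - y') ^ 2 < 4 := by
  have h4 := sq_le_sq' (by linarith [(abs_le.1 h1).1]) (abs_le.1 h1).2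
  have h5 := sq_le_sq' (by linarith [(abs_le.1 h2).1]) (abs_le.1 h2).2
  linarith

theorem cell_dist {c c' : Pt} (hc : disk c ⊆ P.Reg) (hc' : disk c' ⊆ P.Reg) {k : ℕ}
    (hk : k < 7 * P.m + 1) (h : P.InCell k c) (h' : P.InCell k c') :
    (c.1 - c'.1) ^ 2 + (c.2 - c'.2) ^ 2 < 4 := by
  have hG := P.G_bounds
  have hτ := P.hτ0
  have hτ' := P.hτ
  norm_num at hG hτ'
  set j := k / 7 with hj
  unfold InCell at h h'
  rw [← hj] at h h'
  obtain ⟨h0, h1, h2, h3, h4, h5, h6⟩ := h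
  obtain ⟨h0', h1', h2', h3', h4', h5', h6'⟩ := h'
  have hk7 : k % 7 < 7 := Nat.mod_lt _ (by norm_num)
  have hcases : k % 7 = 0 ∨ k % 7 = 1 ∨ k % 7 = 2 ∨ k % 7 = 3 ∨ k % 7 = 4 ∨ k % 7 = 5 ∨
    k % 7 = 6 := by omega
  rcases hcases with e | e | e | e | e | e | e
  · obtain ⟨ha, hb⟩ := h0 e
    obtain ⟨ha', hb'⟩ := h0' e
    have hv := (neck_pos hc (j := j) (by omega) ha hb).1
    have hv' := (neck_pos hc' (j := j) (by omega) ha' hb').1
    rw [abs_le] at hv hv'
    exact dist_lt (a := 6 / 5) (b := 1) (abs_le.2 ⟨by linarith, by linarith⟩)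
      (abs_le.2 ⟨by linarith [hv.1, hv'.2], by linarith [hv.2, hv'.1]⟩) (by norm_num)
  · have hjm : j < P.m := by omega
    have hγ := P.γ_le hjm
    obtain ⟨ha, hb, hs⟩ := h1 e
    obtain ⟨ha', hb', hs'⟩ := h1' e
    norm_num at hb hb'
    have g := gad_pos hc hjm ha (by linarith)
    have g' := gad_pos hc' hjm ha' (by linarith)
    have gv := g.2.2.2.1 (by norm_num; linarith)
    have gv' := g'.2.2.2.1 (by norm_num; linarith)
    rw [abs_le] at gv gv'
    have gx := g.1
    have gx' := g'.1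
    norm_num at gx gx'
    exact dist_lt (a := 1.67) (b := 1.01) (by rw [abs_le]; norm_num; constructor <;> linarith)
      (by rw [abs_le]; norm_num; constructor <;> linarith) (by norm_num)
  · have hjm : j < P.m := by omega
    have hγ := P.γ_le hjm
    obtain ⟨ha, hb, hs⟩ := h2 e
    obtain ⟨ha', hb', hs'⟩ := h2' e
    norm_num at hb hb'
    have g := gad_pos hc hjm ha (by linarith)
    have g' := gad_pos hc' hjm ha' (by linarith)
    have gv := g.2.2.2.1 (by norm_num; linarith)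
    have gv' := g'.2.2.2.1 (by norm_num; linarith)
    rw [abs_le] at gv gv'
    have gx := g.1
    have gx' := g'.1
    norm_num at gx gx'
    exact dist_lt (a := 1.67) (b := 1.01) (by rw [abs_le]; norm_num; constructor <;> linarith)
      (by rw [abs_le]; norm_num; constructor <;> linarith) (by norm_num)
  · have hjm : j < P.m := by omega
    have hγ := P.γ_nonneg j
    obtain ⟨ha, hb, hs⟩ := h3 e
    obtain ⟨ha', hb', hs'⟩ := h3' e
    norm_num at ha hb ha' hb'
    have gv := (gad_pos hc hjm (by linarith) (by linarith)).2.2.1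
    have gv' := (gad_pos hc' hjm (by linarith) (by linarith)).2.2.1
    rw [abs_le] at gv gv'
    exact dist_lt (a := 1.504) (b := 9 / 7) (by rw [abs_le]; norm_num; constructor <;> linarith)
      (by rw [abs_le]; constructor <;> linarith) (by norm_num)
  · have hjm : j < P.m := by omega
    have hγ := P.γ_nonneg j
    obtain ⟨ha, hb, hs⟩ := h4 e
    obtain ⟨ha', hb', hs'⟩ := h4' e
    norm_num at ha hb ha' hb'
    have gv := (gad_pos hc hjm (by linarith) (by linarith)).2.2.1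
    have gv' := (gad_pos hc' hjm (by linarith) (by linarith)).2.2.1
    rw [abs_le] at gv gv'
    exact dist_lt (a := 1.504) (b := 9 / 7) (by rw [abs_le]; norm_num; constructor <;> linarith)
      (by rw [abs_le]; constructor <;> linarith) (by norm_num)
  · have hjm : j < P.m := by omega
    have hγ := P.γ_le hjm
    obtain ⟨ha, hb, hs⟩ := h5 e
    obtain ⟨ha', hb', hs'⟩ := h5' e
    norm_num at ha ha'
    have g := gad_pos hc hjm (by linarith) hb
    have g' := gad_pos hc' hjm (by linarith) hb'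
    have gv := g.2.2.2.2 (by norm_num; linarith)
    have gv' := g'.2.2.2.2 (by norm_num; linarith)
    rw [abs_le] at gv gv'
    have gx := g.2.1
    have gx' := g'.2.1
    norm_num at gx gx'
    exact dist_lt (a := 1.67) (b := 1.01) (by rw [abs_le]; norm_num; constructor <;> linarith)
      (by rw [abs_le]; norm_num; constructor <;> linarith) (by norm_num)
  · have hjm : j < P.m := by omega
    have hγ := P.γ_le hjm
    obtain ⟨ha, hb, hs⟩ := h6 e
    obtain ⟨ha', hb', hs'⟩ := h6' e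
    norm_num at ha ha'
    have g := gad_pos hc hjm (by linarith) hb
    have g' := gad_pos hc' hjm (by linarith) hb'
    have gv := g.2.2.2.2 (by norm_num; linarith)
    have gv' := g'.2.2.2.2 (by norm_num; linarith)
    rw [abs_le] at gv gv'
    have gx := g.2.1
    have gx' := g'.2.1
    norm_num at gx gx'
    exact dist_lt (a := 1.67) (b := 1.01) (by rw [abs_le]; norm_num; constructor <;> linarith)
      (by rw [abs_le]; norm_num; constructor <;> linarith) (by norm_num)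

/-- every cell contains one of the centres -/
theorem exists_centres (h : P.RPacks) : ∃ p : ℕ → Pt, (∀ k, k < 7 * P.m + 1 →
    disk (p k) ⊆ P.Reg ∧ P.InCell k (p k)) ∧
    ∀ k l, k < 7 * P.m + 1 → l < 7 * P.m + 1 → k ≠ l →
      4 ≤ ((p k).1 - (p l).1) ^ 2 + ((p k).2 - (p l).2) ^ 2 := by
  obtain ⟨c, hc, hd⟩ := h
  choose κ hκ hκ' using fun i => exists_cell (hc i)
  set κ' : Fin (7 * P.m + 1) → Fin (7 * P.m + 1) := fun i => ⟨κ i, hκ i⟩ with hκ''
  have hinj : Function.Injective κ' := by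
    intro i j hij
    by_contra hne
    have h1 : κ i = κ j := by
      have := congrArg Fin.val hij
      simpa [hκ''] using this
    have h2 := cell_dist (hc i) (hc j) (hκ i) (hκ' i) (by rw [h1]; exact hκ' j)
    have h3 := hd i j hne
    linarith
  have hsurj := Finite.surjective_of_injective hinj
  choose σ hσ using hsurj
  refine ⟨fun k => if hk : k < 7 * P.m + 1 then c (σ ⟨k, hk⟩) else 0, ?_, ?_⟩
  · intro k hk
    simp only [hk, dif_pos]
    refine ⟨hc _, ?_⟩
    have h1 := hκ' (σ ⟨k, hk⟩)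
    have h2 : κ (σ ⟨k, hk⟩) = k := by
      have := congrArg Fin.val (hσ ⟨k, hk⟩)
      simpa [hκ''] using this
    rwa [h2] at h1
  · intro k l hk hl hkl
    simp only [hk, hl, dif_pos]
    apply hd
    intro h1
    have h2 := congrArg κ' h1
    rw [hσ, hσ] at h2
    exact hkl (by simpa using congrArg Fin.val h2)

end Par

end Pool.Agent.Helper97.UDP
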