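import Pool.Agent.Helper97.UDP.Par

/-!
# The region of the construction
-/

set_option autoImplicit false

namespace Pool.Agent.Helper97.UDP

open Pool.Agent.Helper20.Flip

theorem sqrt3_bounds : (1.73205 : ℝ) ≤ √3 ∧ √3 ≤ 1.73206 := by
  constructor
  · apply Real.le_sqrt_of_sq_le; norm_num
  · rw [Real.sqrt_le_left (by norm_num)]; norm_num

namespace Par

variable (P : Par)

theorem r_bounds : (1.73205 : ℝ) ≤ P.r ∧ P.r ≤ 1.73213 := by
  have h := sqrt3_bounds
  have h1 := P.hr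
  have h2 := P.hr'
  norm_num at h2 h ⊢
  constructor <;> linarith [h.1, h.2]

theorem G_bounds : (7.423 : ℝ) ≤ P.G ∧ P.G ≤ 7.4235 := by
  have h := P.r_bounds
  unfold Par.G
  norm_num at h ⊢
  constructor <;> linarith [h.1, h.2]

theorem γ_nonneg (j : ℕ) : 0 ≤ P.γ j := mul_nonneg (Nat.cast_nonneg _) P.hη.le

theorem γ_le {j : ℕ} (hj : j < P.m) : P.γ j ≤ 2 * P.τ := by
  refine le_trans ?_ P.hw
  unfold Par.γ
  refine mul_le_mul_of_nonneg_right ?_ P.hη.le
  exact Finset.single_le_sum (f := fun j => (P.w j : ℝ)) (fun i _ => Nat.cast_nonneg _)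
    (Finset.mem_range.2 hj)

theorem bx_zero : P.bx 0 = -1 := by simp [bx]

theorem bx_last : P.bx (6 * P.m + 1) = P.m * P.G + 1 := by simp [bx]

theorem bx0 {j : ℕ} (hj : 1 ≤ j) : P.bx (6 * j) = j * P.G - 3 / 5 := by
  unfold bx
  rw [if_neg (by omega), if_neg (by omega), if_pos (by omega)]
  rw [show 6 * j / 6 = j by omega]

theorem bx1 {j : ℕ} (hj : j < P.m) : P.bx (6 * j + 1) = j * P.G + 3 / 5 := by
  unfold bx
  rw [if_neg (by omega), if_neg (by omega), if_neg (by omega), if_pos (by omega)]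
  rw [show (6 * j + 1) / 6 = j by omega]

theorem bx2 (j : ℕ) : P.bx (6 * j + 2) = j * P.G + 7 / 10 := by
  unfold bx
  rw [if_neg (by omega), if_neg (by omega), if_neg (by omega), if_neg (by omega),
    if_pos (by omega)]
  rw [show (6 * j + 2) / 6 = j by omega]

theorem bx3 (j : ℕ) : P.bx (6 * j + 3) = j * P.G + (15 / 7 * P.r - 3 / 4) := by
  unfold bx
  rw [if_neg (by omega), if_neg (by omega), if_neg (by omega), if_neg (by omega),
    if_neg (by omega), if_pos (by omega)]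
  rw [show (6 * j + 3) / 6 = j by omega]

theorem bx4 (j : ℕ) : P.bx (6 * j + 4) = j * P.G + (15 / 7 * P.r + 3 / 4) := by
  unfold bx
  rw [if_neg (by omega), if_neg (by omega), if_neg (by omega), if_neg (by omega),
    if_neg (by omega), if_neg (by omega), if_pos (by omega)]
  rw [show (6 * j + 4) / 6 = j by omega]

theorem bx5 (j : ℕ) : P.bx (6 * j + 5) = j * P.G + (P.G - 7 / 10) := by
  unfold bx
  rw [if_neg (by omega), if_neg (by omega), if_neg (by omega), if_neg (by omega),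
    if_neg (by omega), if_neg (by omega), if_neg (by omega)]
  rw [show (6 * j + 5) / 6 = j by omega]

theorem bx6 (j : ℕ) : P.bx (6 * j + 6) = j * P.G + (P.G - 3 / 5) := by
  rw [show 6 * j + 6 = 6 * (j + 1) by ring, bx0 P (by omega)]
  push_cast
  ring

theorem ht0 (j : ℕ) : P.ht (6 * j) = if j = 0 ∨ j = P.m then 1 else 5 / 4 := by
  unfold ht
  rw [if_pos (by omega)]
  congr 1
  simp

theorem ht1 (j : ℕ) : P.ht (6 * j + 1) = 4 / 5 + P.τ := by
  unfold ht
  rw [if_neg (by omega), if_pos (by omega)]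

theorem ht2 (j : ℕ) : P.ht (6 * j + 2) = 2 + P.γ j := by
  unfold ht
  rw [if_neg (by omega), if_neg (by omega), if_pos (by omega),
    show (6 * j + 2) / 6 = j by omega]

theorem ht3 (j : ℕ) : P.ht (6 * j + 3) = 16 / 7 - 4 * P.γ j := by
  unfold ht
  rw [if_neg (by omega), if_neg (by omega), if_neg (by omega), if_pos (by omega),
    show (6 * j + 3) / 6 = j by omega]

theorem ht4 (j : ℕ) : P.ht (6 * j + 4) = 2 + P.γ j := by
  unfold ht
  rw [if_neg (by omega), if_neg (by omega), if_neg (by omega), if_neg (by omega),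
    if_pos (by omega), show (6 * j + 4) / 6 = j by omega]

theorem ht5 (j : ℕ) : P.ht (6 * j + 5) = 4 / 5 + P.τ := by
  unfold ht
  rw [if_neg (by omega), if_neg (by omega), if_neg (by omega), if_neg (by omega),
    if_neg (by omega)]

/-- case analysis on the steps -/
theorem step_cases {i : ℕ} (hi : i < P.K) : (∃ j, j ≤ P.m ∧ i = 6 * j) ∨ (∃ j, j < P.m ∧
    (i = 6 * j + 1 ∨ i = 6 * j + 2 ∨ i = 6 * j + 3 ∨ i = 6 * j + 4 ∨ i = 6 * j + 5)) := by
  unfold Par.K at hi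
  have h1 := Nat.div_add_mod i 6
  have h2 := Nat.mod_lt i (show 6 > 0 by norm_num)
  rcases Nat.eq_zero_or_pos (i % 6) with h | h
  · exact Or.inl ⟨i / 6, by omega, by omega⟩
  · exact Or.inr ⟨i / 6, by omega, by omega⟩

theorem bx_neckR {j : ℕ} (hj : j ≤ P.m) : j * P.G + 3 / 5 ≤ P.bx (6 * j + 1) ∧
    P.bx (6 * j + 1) ≤ j * P.G + 1 ∧ (j < P.m → P.bx (6 * j + 1) = j * P.G + 3 / 5) := by
  rcases lt_or_eq_of_le hj with h | h
  · rw [bx1 P h]
    refine ⟨le_refl _, by norm_num, fun _ => rfl⟩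
  · subst h
    rw [bx_last]
    refine ⟨by norm_num, le_refl _, fun h => absurd h (lt_irrefl _)⟩

theorem bx_neckL (j : ℕ) : P.bx (6 * j) ≤ j * P.G - 3 / 5 ∧ j * P.G - 1 ≤ P.bx (6 * j) ∧
    (1 ≤ j → P.bx (6 * j) = j * P.G - 3 / 5) := by
  rcases Nat.eq_zero_or_pos j with h | h
  · subst h
    rw [mul_zero, bx_zero]
    norm_num
  · rw [bx0 P h]
    refine ⟨le_refl _, by linarith, fun _ => rfl⟩

theorem bx_lt {i : ℕ} (hi : i < P.K) : P.bx i < P.bx (i + 1) := by
  have hG := P.G_bounds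
  have hr := P.r_bounds
  have hGr : P.G = 30 / 7 * P.r := rfl
  norm_num at hG hr
  rcases P.step_cases hi with ⟨j, hj, rfl⟩ | ⟨j, hj, rfl | rfl | rfl | rfl | rfl⟩
  · have h1 := P.bx_neckR hj
    have h2 := P.bx_neckL j
    linarith [h1.1, h2.1]
  · rw [bx1 P hj, show 6 * j + 1 + 1 = 6 * j + 2 by ring, bx2]; linarith
  · rw [bx2, show 6 * j + 2 + 1 = 6 * j + 3 by ring, bx3]; linarith
  · rw [bx3, show 6 * j + 3 + 1 = 6 * j + 4 by ring, bx4]; linarith
  · rw [bx4, show 6 * j + 4 + 1 = 6 * j + 5 by ring, bx5]; linarith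
  · rw [bx5, show 6 * j + 5 + 1 = 6 * j + 6 by ring, bx6]; linarith

theorem ht_pos {i : ℕ} (hi : i < P.K) : 0 < P.ht i := by
  have hτ := P.hτ0
  have hτ' := P.hτ
  norm_num at hτ'
  rcases P.step_cases hi with ⟨j, hj, rfl⟩ | ⟨j, hj, rfl | rfl | rfl | rfl | rfl⟩
  · rw [ht0]; split_ifs <;> norm_num
  · rw [ht1]; linarith
  · rw [ht2]; linarith [P.γ_nonneg j]
  · rw [ht3]; linarith [P.γ_le hj]
  · rw [ht4]; linarith [P.γ_nonneg j]
  · rw [ht5]; linarith

theorem ht_le {i : ℕ} (hi : i < P.K) : P.ht i ≤ 16 / 7 := by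
  have hτ := P.hτ0
  have hτ' := P.hτ
  norm_num at hτ'
  rcases P.step_cases hi with ⟨j, hj, rfl⟩ | ⟨j, hj, rfl | rfl | rfl | rfl | rfl⟩
  · rw [ht0]; split_ifs <;> norm_num
  · rw [ht1]; linarith
  · rw [ht2]; linarith [P.γ_le hj]
  · rw [ht3]; linarith [P.γ_nonneg j]
  · rw [ht4]; linarith [P.γ_le hj]
  · rw [ht5]; linarith

theorem ht_ne {i : ℕ} (hi : i + 1 < P.K) : P.ht i ≠ P.ht (i + 1) := by
  have hτ := P.hτ0
  have hτ' := P.hτ
  norm_num at hτ'
  have hi' : i < P.K := by omega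
  unfold Par.K at hi
  rcases P.step_cases hi' with ⟨j, hj, rfl⟩ | ⟨j, hj, rfl | rfl | rfl | rfl | rfl⟩
  · rw [ht0, ht1]
    split_ifs <;> intro h <;> linarith
  · rw [ht1, show 6 * j + 1 + 1 = 6 * j + 2 by ring, ht2]
    intro h
    linarith [P.γ_nonneg j]
  · rw [ht2, show 6 * j + 2 + 1 = 6 * j + 3 by ring, ht3]
    intro h
    linarith [P.γ_le hj]
  · rw [ht3, show 6 * j + 3 + 1 = 6 * j + 4 by ring, ht4]
    intro h
    linarith [P.γ_le hj]
  · rw [ht4, show 6 * j + 4 + 1 = 6 * j + 5 by ring, ht5]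
    intro h
    linarith [P.γ_nonneg j]
  · rw [ht5, show 6 * j + 5 + 1 = 6 * (j + 1) by ring, ht0]
    split_ifs <;> intro h <;> linarith

end Par

end Pool.Agent.Helper97.UDP
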