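import Pool.Agent.Helper97.UDP.Tangent

/-!
# No convex gadgets for packings of unit disks
-/

set_option autoImplicit false

namespace Pool.Agent.Helper97.UDP

open Pool.Agent.Helper20.Flip Set Topology

/-- A strictly convex set which agrees inside an open set with an affine image of the packings has
only boundedly many boundary points there. -/
theorem no_convex {n : ℕ} {V : ZMod n → Pt} (hV : IsSimple V) (m : ℕ)
    (π : (Fin m → Pt) →ᵃ[ℝ] Pt) (U K : Set Pt) (hU : IsOpen U) (hK : StrictConvex ℝ K)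
    (hUK : π '' Packings V m ∩ U = K ∩ U) :
    (U ∩ K ∩ frontier K).encard ≤ ((2 ^ (m * 2 ^ n + m ^ 2) : ℕ) : ℕ∞) := by
  set N : ℕ := 2 ^ (m * 2 ^ n + m ^ 2) + 1 with hNdef
  by_contra hlt
  have h1 : ((N : ℕ) : ℕ∞) ≤ (U ∩ K ∩ frontier K).encard := by
    rw [not_le] at hlt
    have := Order.add_one_le_of_lt hlt
    rw [hNdef]
    push_cast at this ⊢
    exact this
  obtain ⟨T, hT, hTc⟩ := Set.exists_subset_encard_eq h1
  have hfin : T.Finite := Set.finite_of_encard_eq_coe hTc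
  have hcard : N ≤ hfin.toFinset.card := by
    rw [← Set.ncard_eq_toFinset_card T hfin]
    have := hfin.cast_ncard_eq
    rw [hTc] at this
    exact_mod_cast this.ge
  have hsub : ((hfin.toFinset : Finset Pt) : Set Pt) ⊆ π '' Packings V m := by
    intro p hp
    rw [Set.Finite.coe_toFinset] at hp
    have h2 := hT hp
    have h3 : p ∈ K ∩ U := ⟨h2.1.2, h2.1.1⟩
    rw [← hUK] at h3
    exact h3.1
  obtain ⟨a, ha, b, hb, hab, δ, hδ, h⟩ := packings_extrapolate hV m π hfin.toFinset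
    (by omega) hsub
  rw [Set.Finite.mem_toFinset] at ha hb
  have haT := hT ha
  have hbT := hT hb
  -- small ε
  have hcont : Filter.Tendsto (fun ε : ℝ => a + ε • (a - b)) (𝓝[>] 0) (𝓝 a) := by
    have h1 : ContinuousAt (fun ε : ℝ => a + ε • (a - b)) 0 := by fun_prop
    have h2 := h1.tendsto
    simp only [zero_smul, add_zero] at h2
    exact h2.mono_left nhdsWithin_le_nhds
  have e1 : ∀ᶠ ε : ℝ in 𝓝[>] 0, a + ε • (a - b) ∈ U := hcont.eventually (hU.mem_nhds haT.1.1)
  have e2 : ∀ᶠ ε : ℝ in 𝓝[>] 0, ε < δ := (eventually_lt_nhds hδ).filter_mono nhdsWithin_le_nhds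
  have e3 : ∀ᶠ ε : ℝ in 𝓝[>] 0, 0 < ε := self_mem_nhdsWithin
  obtain ⟨ε, h1, h2, h3⟩ := (e1.and (e2.and e3)).exists
  have hz : a + ε • (a - b) ∈ K := by
    have : a + ε • (a - b) ∈ π '' Packings V m ∩ U := ⟨h ε h3 h2, h1⟩
    rw [hUK] at this
    exact this.1
  have hne : a + ε • (a - b) ≠ b := by
    intro he
    have h4 : (1 + ε) • (a - b) = 0 := by
      rw [add_smul, one_smul]
      have : ε • (a - b) = b - a := eq_sub_of_add_eq' he
      rw [this]; abel
    rcases smul_eq_zero.1 h4 with h5 | h5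
    · linarith
    · exact hab (sub_eq_zero.1 h5)
  have hint : a ∈ interior K := by
    have h5 := hK hz hbT.1.2 hne (a := 1 / (1 + ε)) (b := ε / (1 + ε)) (by positivity)
      (by positivity) (by field_simp)
    convert h5 using 1
    rw [smul_add, smul_sub, smul_sub, smul_smul, smul_smul]
    have h2 : 1 / (1 + ε) * ε = ε / (1 + ε) := by ring
    rw [h2]
    have h3 : (1 / (1 + ε)) • a + ((ε / (1 + ε)) • a - (ε / (1 + ε)) • b) +
        (ε / (1 + ε)) • b = (1 / (1 + ε) + ε / (1 + ε)) • a := by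
      rw [add_smul]; abel
    rw [h3]
    have h4 : 1 / (1 + ε) + ε / (1 + ε) = 1 := by field_simp
    rw [h4, one_smul]
  exact haT.2.2 hint

/-- the boundary points must be finite in number: no arc -/
theorem not_realised {n : ℕ} {V : ZMod n → Pt} (hV : IsSimple V) (m : ℕ)
    (π : (Fin m → Pt) →ᵃ[ℝ] Pt) (U K : Set Pt) (hU : IsOpen U) (hK : StrictConvex ℝ K)
    (hinf : (U ∩ K ∩ frontier K).Infinite) : π '' Packings V m ∩ U ≠ K ∩ U := by
  intro h
  have h1 := no_convex hV m π U K hU hK h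
  exact hinf (Set.finite_of_encard_le_coe h1)

theorem strictConvex_parabola : StrictConvex ℝ {p : Pt | p.1 ^ 2 ≤ p.2} := by
  intro p hp q hq hpq a b ha hb hab
  have hp : p.1 ^ 2 ≤ p.2 := hp
  have hq : q.1 ^ 2 ≤ q.2 := hq
  rw [mem_interior]
  refine ⟨{p : Pt | p.1 ^ 2 < p.2}, fun z (hz : z.1 ^ 2 < z.2) => hz.le,
    isOpen_lt (by fun_prop) (by fun_prop), ?_⟩
  show (a * p.1 + b * q.1) ^ 2 < a * p.2 + b * q.2
  have e : (a * p.1 + b * q.1) ^ 2 = a * p.1 ^ 2 + b * q.1 ^ 2 - a * b * (p.1 - q.1) ^ 2 := by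
    have : a = 1 - b := by linarith
    subst this; ring
  rw [e]
  have h1 := mul_le_mul_of_nonneg_left hp ha.le
  have h2 := mul_le_mul_of_nonneg_left hq hb.le
  rcases eq_or_ne p.1 q.1 with h | h
  · have h3 : p.2 ≠ q.2 := fun h' => hpq (Prod.ext h h')
    rw [h, sub_self]
    rw [h] at hp h1
    rcases lt_or_gt_of_ne h3 with h4 | h4
    · have := mul_lt_mul_of_pos_left (lt_of_le_of_lt hp h4) hb
      nlinarith
    · have := mul_lt_mul_of_pos_left (lt_of_le_of_lt hq h4) ha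
      nlinarith
  · have : 0 < a * b * (p.1 - q.1) ^ 2 := by
      have : p.1 - q.1 ≠ 0 := sub_ne_zero.2 h
      positivity
    linarith

theorem strictConvex_hyperbola : StrictConvex ℝ {p : Pt | 0 < p.1 ∧ 1 ≤ p.1 * p.2} := by
  rintro ⟨x, y⟩ ⟨hx, hxy⟩ ⟨x', y'⟩ ⟨hx', hxy'⟩ hpq a b ha hb hab
  simp only at hx hxy hx' hxy'
  have hy : 0 < y := by
    by_contra h
    nlinarith [mul_nonneg hx.le (neg_nonneg.2 (not_lt.1 h))]
  have hy' : 0 < y' := by
    by_contra h
    nlinarith [mul_nonneg hx'.le (neg_nonneg.2 (not_lt.1 h))]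
  rw [mem_interior]
  refine ⟨{p : Pt | 0 < p.1 ∧ 1 < p.1 * p.2}, fun z hz => ⟨hz.1, hz.2.le⟩,
    (isOpen_lt continuous_const continuous_fst).and
      (isOpen_lt continuous_const (continuous_fst.mul continuous_snd)), ?_⟩
  show 0 < a * x + b * x' ∧ 1 < (a * x + b * x') * (a * y + b * y')
  refine ⟨by positivity, ?_⟩
  have e : (a * x + b * x') * (a * y + b * y') =
      a ^ 2 * (x * y) + b ^ 2 * (x' * y') + a * b * (x * y' + x' * y) := by ring
  have e1 : (1 : ℝ) = a ^ 2 + b ^ 2 + a * b * 2 := by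
    have : a = 1 - b := by linarith
    subst this; ring
  have h1 : a ^ 2 ≤ a ^ 2 * (x * y) := le_mul_of_one_le_right (by positivity) hxy
  have h2 : b ^ 2 ≤ b ^ 2 * (x' * y') := le_mul_of_one_le_right (by positivity) hxy'
  have hs : 2 ≤ x * y' + x' * y := by
    have h3 : 1 ≤ (x * y) * (x' * y') := by nlinarith
    have h4 : (2 : ℝ) ^ 2 ≤ (x * y' + x' * y) ^ 2 := by nlinarith [sq_nonneg (x * y' - x' * y)]
    exact le_of_sq_le_sq h4 (by positivity)
  rcases eq_or_lt_of_le hs with h | h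
  · -- equality
    have h3 : 1 ≤ (x * y) * (x' * y') := by nlinarith
    have h5 : (x * y' - x' * y) ^ 2 ≤ 0 := by nlinarith
    have h6 : x * y' = x' * y := by nlinarith [sq_nonneg (x * y' - x' * y)]
    have h7 : x * y' = 1 := by linarith
    have h8 : x' * y = 1 := by linarith
    have h9 : 1 < x * y ∨ 1 < x' * y' := by
      by_contra hc
      rw [not_or, not_lt, not_lt] at hc
      have e2 : x * y = 1 := le_antisymm hc.1 hxy
      have e3 : y = y' := by
        have : x * (y - y') = 0 := by linarith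
        rcases mul_eq_zero.1 this with h | h
        · exact absurd h hx.ne'
        · linarith
      have e4 : x = x' := by
        have : y * (x - x') = 0 := by linarith
        rcases mul_eq_zero.1 this with h | h
        · exact absurd h hy.ne'
        · linarith
      exact hpq (by rw [e3, e4])
    rw [e, ← h, e1]
    rcases h9 with h9 | h9
    · have : a ^ 2 < a ^ 2 * (x * y) := lt_mul_of_one_lt_right (by positivity) h9
      linarith
    · have : b ^ 2 < b ^ 2 * (x' * y') := lt_mul_of_one_lt_right (by positivity) h9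
      linarith
  · have : a * b * 2 < a * b * (x * y' + x' * y) := mul_lt_mul_of_pos_left h (by positivity)
    rw [e]
    linarith

theorem mem_frontier_of_below {K : Set Pt} {p : Pt} (hp : p ∈ K)
    (h : ∀ δ : ℝ, 0 < δ → (p.1, p.2 - δ) ∉ K) : p ∈ frontier K := by
  refine ⟨subset_closure hp, fun hi => ?_⟩
  have hcont : Filter.Tendsto (fun δ : ℝ => ((p.1, p.2 - δ) : Pt)) (𝓝[>] 0) (𝓝 p) := by
    have h1 : ContinuousAt (fun δ : ℝ => ((p.1, p.2 - δ) : Pt)) 0 := by fun_prop
    have h2 := h1.tendsto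
    simp only [sub_zero] at h2
    exact h2.mono_left nhdsWithin_le_nhds
  have e1 : ∀ᶠ δ : ℝ in 𝓝[>] 0, ((p.1, p.2 - δ) : Pt) ∈ K :=
    hcont.eventually (mem_interior_iff_mem_nhds.1 hi)
  have e3 : ∀ᶠ δ : ℝ in 𝓝[>] 0, 0 < δ := self_mem_nhdsWithin
  obtain ⟨δ, h1, h2⟩ := (e1.and e3).exists
  exact h δ h2 h1

/-- the boundary of a set above the graph of a continuous function contains infinitely many points
of every open set that meets it -/
theorem infinite_frontier {K : Set Pt} {D : Set ℝ} (hD : IsOpen D) {g : ℝ → ℝ}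
    (hg : ContinuousOn g D) (hK : ∀ x ∈ D, ∀ y, (x, y) ∈ K ↔ g x ≤ y) {U : Set Pt}
    (hU : IsOpen U) {x₀ : ℝ} (hx₀ : x₀ ∈ D) (h : (x₀, g x₀) ∈ U) :
    (U ∩ K ∩ frontier K).Infinite := by
  have h1 : {x : ℝ | (x, g x) ∈ U ∧ x ∈ D} ∈ 𝓝 x₀ := by
    have hc : ContinuousAt (fun x : ℝ => ((x, g x) : Pt)) x₀ :=
      continuousAt_id.prodMk (hg.continuousAt (hD.mem_nhds hx₀))
    exact Filter.inter_mem (hc (hU.mem_nhds h)) (hD.mem_nhds hx₀)
  have h2 := infinite_of_mem_nhds x₀ h1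
  refine (h2.image (f := fun x : ℝ => ((x, g x) : Pt)) ?_).mono ?_
  · intro x _ y _ hxy
    exact (Prod.ext_iff.1 hxy).1
  · rintro _ ⟨x, ⟨hxU, hxD⟩, rfl⟩
    have hmem : ((x, g x) : Pt) ∈ K := (hK x hxD (g x)).2 le_rfl
    refine ⟨⟨hxU, hmem⟩, mem_frontier_of_below hmem ?_⟩
    intro δ hδ hc
    have := (hK x hxD (g x - δ)).1 hc
    linarith

end Pool.Agent.Helper97.UDP
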