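import Pool.Agent.Helper97.UDP.Sys

/-!
# The structure of the configurations of a minimal type
-/

set_option autoImplicit false

namespace Pool.Agent.Helper97.UDP.Gad

open Set Topology Pool.Agent.Helper20.Flip

variable {m : ℕ} {S : Sys m}

/-- `G` is a family of configurations, `P` consists of members of type `T` near which all members
have the type `T`. -/
structure Fam (S : Sys m) (G P : Set (Cfg m)) (T : Set (S.I ⊕ (Fin m × Fin m))) : Prop where
  GF : G ⊆ S.F
  H1 : ∀ c ∈ G, ∀ d ∈ G, ∀ᶠ ε in 𝓝[>] (0 : ℝ), c + ε • (c - d) ∈ S.F → c + ε • (c - d) ∈ G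
  H2 : ∀ c ∈ G, ∀ᶠ w in 𝓝 (0 : Cfg m), c + w ∈ S.F → c - w ∈ S.F → c + w ∈ G
  PG : P ⊆ G
  PT : ∀ c ∈ P, S.ty c = T
  Pn : ∀ c ∈ P, ∀ᶠ c' in 𝓝 c, c' ∈ G → S.ty c' = T

namespace Fam

variable {G P : Set (Cfg m)} {T : Set (S.I ⊕ (Fin m × Fin m))}

theorem tendsto_line (c w : Cfg m) :
    Filter.Tendsto (fun ε : ℝ => c + ε • w) (𝓝[>] 0) (𝓝 c) := by
  have h1 : ContinuousAt (fun ε : ℝ => c + ε • w) 0 := by fun_prop
  have h2 := h1.tendsto
  simp only [zero_smul, add_zero] at h2
  exact h2.mono_left nhdsWithin_le_nhds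

theorem nsq_ext (a b : Pt) (h : nsq a = nsq b) (ε : ℝ) :
    nsq (a + ε • (a - b)) = nsq a + (ε + ε ^ 2) * nsq (a - b) := by
  unfold nsq at *
  simp only [Prod.fst_add, Prod.smul_fst, smul_eq_mul, Prod.fst_sub, Prod.snd_add, Prod.smul_snd,
    Prod.snd_sub]
  linear_combination ε * h

theorem ext (hf : Fam S G P T) {c d : Cfg m} (hc : c ∈ P) (hd : d ∈ P) :
    ∀ᶠ ε in 𝓝[>] (0 : ℝ), c + ε • (c - d) ∈ G ∧ S.ty (c + ε • (c - d)) = T := by
  have h1 := (tendsto_line c (c - d)).eventually (S.mem_F_near c)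
  have h2 := (tendsto_line c (c - d)).eventually (hf.Pn c hc)
  filter_upwards [h1, h2, hf.H1 c (hf.PG hc) d (hf.PG hd), self_mem_nhdsWithin] with ε h3 h4 h5 h6
  have h6 : 0 < ε := h6
  have hcF := hf.GF (hf.PG hc)
  have hdF := hf.GF (hf.PG hd)
  have h7 : c + ε • (c - d) ∈ S.F := by
    refine h3 (fun i hi => ?_) fun j k hjk => ?_
    · rw [hf.PT c hc, ← hf.PT d hd, S.inl_mem] at hi
      exact not_mem_forward (S.isOpen i) (S.conv i) (hcF.1 i) hi h6.le
    · have e1 := S.eq_four hcF hjk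
      rw [hf.PT c hc, ← hf.PT d hd] at hjk
      have e2 := S.eq_four hdF hjk
      have e3 : (c + ε • (c - d)) j - (c + ε • (c - d)) k =
          (c j - c k) + ε • ((c j - c k) - (d j - d k)) := by
        simp only [Pi.add_apply, Pi.smul_apply, Pi.sub_apply, smul_sub]
        abel
      rw [e3, nsq_ext _ _ (e1.trans e2.symm), e1]
      have := nsq_nonneg ((c j - c k) - (d j - d k))
      nlinarith [mul_nonneg (add_nonneg h6.le (sq_nonneg ε)) this]
  exact ⟨h5 h7, h4 (h5 h7)⟩

theorem pair (hf : Fam S G P T) {c d : Cfg m} (hc : c ∈ P) (hd : d ∈ P) {j k : Fin m}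
    (h : Sum.inr (j, k) ∈ T) : c j - c k = d j - d k := by
  obtain ⟨ε, ⟨h1, h2⟩, h3⟩ := ((hf.ext hc hd).and self_mem_nhdsWithin).exists
  have h3 : 0 < ε := h3
  have e1 := S.eq_four (hf.GF (hf.PG hc)) (j := j) (k := k) (by rw [hf.PT c hc]; exact h)
  have e2 := S.eq_four (hf.GF (hf.PG hd)) (j := j) (k := k) (by rw [hf.PT d hd]; exact h)
  have e4 := S.eq_four (hf.GF h1) (j := j) (k := k) (by rw [h2]; exact h)
  have e3 : (c + ε • (c - d)) j - (c + ε • (c - d)) k =
      (c j - c k) + ε • ((c j - c k) - (d j - d k)) := by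
    simp only [Pi.add_apply, Pi.smul_apply, Pi.sub_apply, smul_sub]
    abel
  rw [e3, nsq_ext _ _ (e1.trans e2.symm), e1] at e4
  have h5 : nsq ((c j - c k) - (d j - d k)) ≤ 0 := by
    by_contra h6
    rw [not_le] at h6
    have : 0 < (ε + ε ^ 2) * nsq ((c j - c k) - (d j - d k)) := by positivity
    linarith
  exact sub_eq_zero.1 (nsq_eq_zero h5)

theorem wall (hf : Fam S G P T) {c d : Cfg m} (hc : c ∈ P) (hd : d ∈ P) {i : S.I}
    (h : Sum.inl i ∈ T) :
    ∃ ε : ℝ, 0 < ε ∧ c (S.b i) + ε • (c (S.b i) - d (S.b i)) ∈ closure (S.N i) := by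
  obtain ⟨ε, ⟨h1, h2⟩, h3⟩ := ((hf.ext hc hd).and self_mem_nhdsWithin).exists
  have h3 : 0 < ε := h3
  refine ⟨ε, h3, ?_⟩
  rw [← h2, S.inl_mem] at h
  exact h

theorem shift (hf : Fam S G P T) {c d : Cfg m} (hc : c ∈ P) (hd : d ∈ P) :
    ∀ᶠ s in 𝓝 (0 : Fin m → ℝ), (∀ j k, Sum.inr (j, k) ∈ T → s j = s k) →
      (fun j => c j + s j • (c j - d j)) ∈ S.F := by
  have h1 : Filter.Tendsto (fun s : Fin m → ℝ => (fun j => c j + s j • (c j - d j) : Cfg m))
      (𝓝 0) (𝓝 c) := by
    have h2 : Continuous (fun s : Fin m → ℝ => (fun j => c j + s j • (c j - d j) : Cfg m)) := by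
      fun_prop
    have h3 := h2.tendsto 0
    simpa using h3
  filter_upwards [h1.eventually (S.mem_F_near c)] with s h2 hs
  have hcF := hf.GF (hf.PG hc)
  refine h2 (fun i hi => ?_) fun j k hjk => ?_
  · rw [hf.PT c hc] at hi
    rcases le_or_gt 0 (s (S.b i)) with h3 | h3
    · have h4 := hi
      rw [← hf.PT d hd, S.inl_mem] at h4
      exact not_mem_forward (S.isOpen i) (S.conv i) (hcF.1 i) h4 h3
    · obtain ⟨ε, hε, h4⟩ := hf.wall hc hd hi
      exact not_mem_backward (S.isOpen i) (S.conv i) (hcF.1 i) hε h4 h3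
  · have e1 := S.eq_four hcF hjk
    rw [hf.PT c hc] at hjk
    have e2 := hf.pair hc hd hjk
    have e3 : c j + s j • (c j - d j) - (c k + s k • (c k - d k)) = c j - c k := by
      rw [hs j k hjk]
      have e4 : c j - d j = c k - d k := by
        have : c j - c k - (d j - d k) = 0 := by rw [e2, sub_self]
        rw [← sub_eq_zero]
        rw [← this]; abel
      rw [e4]; abel
    show 4 ≤ nsq (c j + s j • (c j - d j) - (c k + s k • (c k - d k)))
    rw [e3, e1]

theorem shiftG (hf : Fam S G P T) {c d : Cfg m} (hc : c ∈ P) (hd : d ∈ P) :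
    ∀ᶠ s in 𝓝 (0 : Fin m → ℝ), (∀ j k, Sum.inr (j, k) ∈ T → s j = s k) →
      (fun j => c j + s j • (c j - d j)) ∈ G ∧
        S.ty (fun j => c j + s j • (c j - d j)) = T := by
  have h0 := hf.shift hc hd
  have h0' : ∀ᶠ s in 𝓝 (0 : Fin m → ℝ), (∀ j k, Sum.inr (j, k) ∈ T → (-s) j = (-s) k) →
      (fun j => c j + (-s) j • (c j - d j)) ∈ S.F := by
    have h1 : Filter.Tendsto (fun s : Fin m → ℝ => -s) (𝓝 0) (𝓝 0) := by
      have := (continuous_neg (G := Fin m → ℝ)).tendsto 0
      simpa using this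
    exact h1.eventually h0
  have h1 : Filter.Tendsto (fun s : Fin m → ℝ => (fun j => s j • (c j - d j) : Cfg m))
      (𝓝 0) (𝓝 0) := by
    have h2 : Continuous (fun s : Fin m → ℝ => (fun j => s j • (c j - d j) : Cfg m)) := by
      fun_prop
    have h3 := h2.tendsto 0
    simp only [Pi.zero_apply, zero_smul] at h3
    exact h3
  have h2 : Filter.Tendsto (fun s : Fin m → ℝ => (fun j => c j + s j • (c j - d j) : Cfg m))
      (𝓝 0) (𝓝 c) := by
    have h2 : Continuous (fun s : Fin m → ℝ => (fun j => c j + s j • (c j - d j) : Cfg m)) := by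
      fun_prop
    have h3 := h2.tendsto 0
    simpa using h3
  filter_upwards [h0, h0', h1.eventually (hf.H2 c (hf.PG hc)), h2.eventually (hf.Pn c hc)]
    with s h3 h4 h5 h6 hs
  have h7 : (fun j => c j + s j • (c j - d j)) ∈ G := by
    refine h5 (h3 hs) ?_
    have e1 : c - (fun j => s j • (c j - d j)) = fun j => c j + (-s) j • (c j - d j) := by
      funext j
      simp only [Pi.sub_apply, Pi.neg_apply, neg_smul]
      abel
    rw [e1]
    exact h4 fun j k hjk => by simp only [Pi.neg_apply, hs j k hjk]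
  exact ⟨h7, h6 h7⟩

/-- the cluster of a point: the points connected with it by contacts -/
def Cl (T : Set (S.I ⊕ (Fin m × Fin m))) (j k : Fin m) : Prop :=
  Relation.ReflTransGen (fun j k => Sum.inr (j, k) ∈ T) j k

theorem cl_step {j k k' : Fin m} (hsym : ∀ j k, Sum.inr (j, k) ∈ T → Sum.inr (k, j) ∈ T)
    (h : Sum.inr (k, k') ∈ T) : Cl T j k ↔ Cl T j k' :=
  ⟨fun h' => h'.tail h, fun h' => h'.tail (hsym _ _ h)⟩

theorem cl_symm (hsym : ∀ j k, Sum.inr (j, k) ∈ T → Sum.inr (k, j) ∈ T) {j k : Fin m}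
    (h : Cl T j k) : Cl T k j := by
  induction h with
  | refl => exact Relation.ReflTransGen.refl
  | tail _ h ih => exact (Relation.ReflTransGen.single (hsym _ _ h)).trans ih

theorem sym (hf : Fam S G P T) (hP : P.Nonempty) :
    ∀ j k, Sum.inr (j, k) ∈ T → Sum.inr (k, j) ∈ T := by
  obtain ⟨c, hc⟩ := hP
  intro j k h
  rw [← hf.PT c hc] at h ⊢
  exact S.inr_symm h

theorem cl_eq (hf : Fam S G P T) {c d : Cfg m} (hc : c ∈ P) (hd : d ∈ P) {j k : Fin m}
    (h : Cl T j k) : c k - d k = c j - d j := by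
  induction h with
  | refl => rfl
  | tail _ h ih =>
    rw [← ih]
    have := hf.pair hc hd h
    rename_i k' k'' _
    have e : c k' - c k'' - (d k' - d k'') = 0 := by rw [this, sub_self]
    rw [← sub_eq_zero]
    have e2 : c k'' - d k'' - (c k' - d k') = -(c k' - c k'' - (d k' - d k'')) := by abel
    rw [e2, e, neg_zero]

open Classical in
/-- a cluster with at least two points can be translated along a line only -/
theorem line (hf : Fam S G P T) {c d d' : Cfg m} (hc : c ∈ P) (hd : d ∈ P) (hd' : d' ∈ P)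
    {j k : Fin m} (hjk : Sum.inr (j, k) ∈ T) :
    (c j - d j).1 * (c j - d' j).2 - (c j - d j).2 * (c j - d' j).1 = 0 := by
  by_contra hdet
  have hsym := hf.sym ⟨c, hc⟩
  have hcF := hf.GF (hf.PG hc)
  -- no walls
  have hwall : ∀ i, Sum.inl i ∈ T → ¬ Cl T j (S.b i) := by
    intro i hi hcl
    have key : ∀ d ∈ P, ∀ᶠ t in 𝓝 (0 : ℝ), c (S.b i) + t • (c j - d j) ∈ closure (S.N i) := by
      intro d hd
      have h1 : Filter.Tendsto (fun t : ℝ => (fun _ => t : Fin m → ℝ)) (𝓝 0) (𝓝 0) := by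
        have h2 : Continuous (fun t : ℝ => (fun _ => t : Fin m → ℝ)) := by fun_prop
        exact h2.tendsto 0
      filter_upwards [h1.eventually (hf.shiftG hc hd)] with t ht
      obtain ⟨_, h2⟩ := ht fun _ _ _ => rfl
      rw [← h2, S.inl_mem] at hi
      rw [← hf.cl_eq hc hd hcl]
      exact hi
    have h1 := mem_nhds_of_two (S.conv i).closure hdet (key d hd) (key d' hd')
    have h2 : c (S.b i) ∈ interior (closure (S.N i)) := mem_interior_iff_mem_nhds.2 h1
    have h3 : (S.N i).Nonempty := by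
      rw [← closure_nonempty_iff]
      exact ⟨_, mem_of_mem_nhds h1⟩
    rw [(S.conv i).interior_closure_eq_interior_of_nonempty_interior
      (by rw [(S.isOpen i).interior_eq]; exact h3), (S.isOpen i).interior_eq] at h2
    exact hcF.1 i h2
  -- rotate the cluster
  set w : Cfg m := fun i => if Cl T j i then ((c i - c j).2, -(c i - c j).1) else 0 with hw
  have hrot : ∀ᶠ t in 𝓝 (0 : ℝ), c + t • w ∈ S.F := by
    have h1 : Filter.Tendsto (fun t : ℝ => c + t • w) (𝓝 0) (𝓝 c) := by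
      have h2 : Continuous (fun t : ℝ => c + t • w) := by fun_prop
      have h3 := h2.tendsto 0
      simpa using h3
    filter_upwards [h1.eventually (S.mem_F_near c)] with t ht
    refine ht (fun i hi => ?_) fun i i' hii => ?_
    · rw [hf.PT c hc] at hi
      have h2 : w (S.b i) = 0 := by
        rw [hw]; simp only [if_neg (hwall i hi)]
      rw [Pi.add_apply, Pi.smul_apply, h2, smul_zero, add_zero]
      exact hcF.1 i
    · have e1 := S.eq_four hcF hii
      rw [hf.PT c hc] at hii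
      by_cases h2 : Cl T j i
      · have h3 : Cl T j i' := (cl_step hsym hii).1 h2
        have e2 : nsq ((c + t • w) i - (c + t • w) i') = (1 + t ^ 2) * nsq (c i - c i') := by
          simp only [Pi.add_apply, Pi.smul_apply, hw, if_pos h2, if_pos h3, nsq, Prod.fst_add,
            Prod.fst_sub, Prod.smul_fst, Prod.snd_add, Prod.snd_sub, Prod.smul_snd, smul_eq_mul]
          ring
        rw [e2, e1]
        nlinarith [sq_nonneg t]
      · have h3 : ¬ Cl T j i' := fun h => h2 ((cl_step hsym hii).2 h)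
        have e2 : (c + t • w) i - (c + t • w) i' = c i - c i' := by
          simp only [Pi.add_apply, Pi.smul_apply, hw, if_neg h2, if_neg h3, smul_zero, add_zero]
        rw [e2, e1]
  have h1 : Filter.Tendsto (fun t : ℝ => t • w) (𝓝 0) (𝓝 0) := by
    have h2 : Continuous (fun t : ℝ => t • w) := by fun_prop
    have h3 := h2.tendsto 0
    simpa using h3
  have h1' : Filter.Tendsto (fun t : ℝ => c + t • w) (𝓝 0) (𝓝 c) := by
    have h2 : Continuous (fun t : ℝ => c + t • w) := by fun_prop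
    have h3 := h2.tendsto 0
    simpa using h3
  have hneg : Filter.Tendsto (fun t : ℝ => -t) (𝓝 0) (𝓝 0) := by
    have := (continuous_neg (G := ℝ)).tendsto 0
    simpa using this
  have h2 : ∀ᶠ t in 𝓝 (0 : ℝ), S.ty (c + t • w) = T := by
    filter_upwards [hrot, hneg.eventually hrot, h1.eventually (hf.H2 c (hf.PG hc)),
      h1'.eventually (hf.Pn c hc)] with t h3 h4 h5 h6
    refine h6 (h5 h3 ?_)
    rw [neg_smul, ← sub_eq_add_neg] at h4
    exact h4
  have h3 : ∀ᶠ t in 𝓝[>] (0 : ℝ), S.ty (c + t • w) = T := h2.filter_mono nhdsWithin_le_nhds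
  obtain ⟨t, h4, h5⟩ := (h3.and self_mem_nhdsWithin).exists
  have h5 : 0 < t := h5
  have h6 := hjk
  rw [← h4, S.inr_mem] at h6
  have hk : Cl T j k := Relation.ReflTransGen.single hjk
  have hj : Cl T j j := Relation.ReflTransGen.refl
  have e2 : nsq ((c + t • w) j - (c + t • w) k) = (1 + t ^ 2) * nsq (c j - c k) := by
    simp only [Pi.add_apply, Pi.smul_apply, hw, if_pos hk, if_pos hj, nsq, Prod.fst_add,
      Prod.fst_sub, Prod.smul_fst, Prod.snd_add, Prod.snd_sub, Prod.smul_snd, smul_eq_mul]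
    ring
  have e1 := S.eq_four hcF (j := j) (k := k) (by rw [hf.PT c hc]; exact hjk)
  rw [e2, e1] at h6
  nlinarith [h6.2, sq_nonneg t, mul_pos h5 h5]

end Fam

end Pool.Agent.Helper97.UDP.Gad
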