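import Pool.Agent.Helper97.UDP.Types
import Pool.Agent.Helper97.UDP.Tangent

/-!
# Systems of constraints: disks which have to avoid each other and given convex sets
-/

set_option autoImplicit false

namespace Pool.Agent.Helper97.UDP.Gad

open Set Topology Pool.Agent.Helper20.Flip

/-- configurations of `m` points -/
abbrev Cfg (m : ℕ) := Fin m → Pt

/-- the square of the norm -/
def nsq (p : Pt) : ℝ := p.1 ^ 2 + p.2 ^ 2

theorem nsq_nonneg (p : Pt) : 0 ≤ nsq p := by unfold nsq; positivity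

theorem nsq_eq_zero {p : Pt} (h : nsq p ≤ 0) : p = 0 := by
  unfold nsq at h
  have h1 : p.1 = 0 := by nlinarith [sq_nonneg p.1, sq_nonneg p.2]
  have h2 : p.2 = 0 := by nlinarith [sq_nonneg p.1, sq_nonneg p.2]
  exact Prod.ext h1 h2

theorem continuous_nsq : Continuous nsq := by unfold nsq; fun_prop

/-- a finite family of open convex sets, each of which one of the points has to avoid -/
structure Sys (m : ℕ) where
  I : Type
  fin : Finite I
  b : I → Fin m
  N : I → Set Pt
  isOpen : ∀ κ, IsOpen (N κ)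
  conv : ∀ κ, Convex ℝ (N κ)

namespace Sys

variable {m : ℕ} (S : Sys m)

instance : Finite S.I := S.fin

/-- the configurations which satisfy all constraints -/
def F : Set (Cfg m) :=
  {c | (∀ κ, c (S.b κ) ∉ S.N κ) ∧ ∀ j k, j ≠ k → 4 ≤ nsq (c j - c k)}

/-- the constraints which are tight -/
def ty (c : Cfg m) : Set (S.I ⊕ (Fin m × Fin m)) :=
  {κ | (∃ i, κ = Sum.inl i ∧ c (S.b i) ∈ closure (S.N i)) ∨
    ∃ j k, κ = Sum.inr (j, k) ∧ j ≠ k ∧ nsq (c j - c k) ≤ 4}

theorem inl_mem {c : Cfg m} {i : S.I} : Sum.inl i ∈ S.ty c ↔ c (S.b i) ∈ closure (S.N i) := by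
  simp [ty]

theorem inr_mem {c : Cfg m} {j k : Fin m} :
    Sum.inr (j, k) ∈ S.ty c ↔ j ≠ k ∧ nsq (c j - c k) ≤ 4 := by
  simp only [ty, mem_ofPred_eq, reduceCtorEq, false_and, exists_false, Sum.inr.injEq,
    Prod.mk.injEq, false_or]
  constructor
  · rintro ⟨j', k', ⟨rfl, rfl⟩, h⟩
    exact h
  · intro h
    exact ⟨j, k, ⟨rfl, rfl⟩, h⟩

theorem inr_symm {c : Cfg m} {j k : Fin m} (h : Sum.inr (j, k) ∈ S.ty c) :
    Sum.inr (k, j) ∈ S.ty c := by
  rw [inr_mem] at h ⊢
  refine ⟨h.1.symm, ?_⟩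
  have : nsq (c k - c j) = nsq (c j - c k) := by
    unfold nsq; simp only [Prod.fst_sub, Prod.snd_sub]; ring
  rw [this]; exact h.2

theorem eq_four {c : Cfg m} (hc : c ∈ S.F) {j k : Fin m} (h : Sum.inr (j, k) ∈ S.ty c) :
    nsq (c j - c k) = 4 := by
  rw [inr_mem] at h
  exact le_antisymm h.2 (hc.2 j k h.1)

theorem ty_near (c : Cfg m) : ∀ᶠ c' in 𝓝 c, S.ty c' ⊆ S.ty c := by
  have h1 : ∀ κ : S.I ⊕ (Fin m × Fin m), ∀ᶠ c' in 𝓝 c, κ ∈ S.ty c' → κ ∈ S.ty c := by
    rintro (i | ⟨j, k⟩)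
    · by_cases h : Sum.inl i ∈ S.ty c
      · exact Filter.Eventually.of_forall fun _ _ => h
      · have h2 : c (S.b i) ∈ (closure (S.N i))ᶜ := fun h3 => h (S.inl_mem.2 h3)
        have h4 : ∀ᶠ c' : Cfg m in 𝓝 c, c' (S.b i) ∈ (closure (S.N i))ᶜ :=
          (continuous_apply (S.b i)).continuousAt.eventually_mem
            (isClosed_closure.isOpen_compl.mem_nhds h2)
        filter_upwards [h4] with c' h5 h6
        exact absurd (S.inl_mem.1 h6) h5
    · by_cases h : Sum.inr (j, k) ∈ S.ty c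
      · exact Filter.Eventually.of_forall fun _ _ => h
      · rw [inr_mem, not_and, not_le] at h
        by_cases hjk : j = k
        · refine Filter.Eventually.of_forall fun c' h' => ?_
          exact absurd hjk (S.inr_mem.1 h').1
        · have h2 := h hjk
          have hc : Continuous fun c' : Cfg m => nsq (c' j - c' k) :=
            continuous_nsq.comp ((continuous_apply j).sub (continuous_apply k))
          have h4 : ∀ᶠ c' : Cfg m in 𝓝 c, 4 < nsq (c' j - c' k) :=
            hc.continuousAt.tendsto.eventually (lt_mem_nhds h2)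
          filter_upwards [h4] with c' h5 h6
          exact absurd (S.inr_mem.1 h6).2 (not_le.2 h5)
  have h2 : ∀ᶠ c' in 𝓝 c, ∀ κ, κ ∈ S.ty c' → κ ∈ S.ty c := Filter.eventually_all.2 h1
  exact h2

theorem mem_F_near (c : Cfg m) : ∀ᶠ c' in 𝓝 c,
    (∀ i, Sum.inl i ∈ S.ty c → c' (S.b i) ∉ S.N i) →
    (∀ j k, Sum.inr (j, k) ∈ S.ty c → 4 ≤ nsq (c' j - c' k)) → c' ∈ S.F := by
  filter_upwards [S.ty_near c] with c' h h1 h2
  refine ⟨fun i => ?_, fun j k hjk => ?_⟩
  · by_cases hi : Sum.inl i ∈ S.ty c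
    · exact h1 i hi
    · intro h3
      exact hi (h (S.inl_mem.2 (subset_closure h3)))
  · by_cases hi : Sum.inr (j, k) ∈ S.ty c
    · exact h2 j k hi
    · by_contra h3
      exact hi (h (S.inr_mem.2 ⟨hjk, (not_le.1 h3).le⟩))

end Sys

/-! ### convex sets in the plane -/

theorem not_mem_forward {N : Set Pt} (hNo : IsOpen N) (hNc : Convex ℝ N) {x y : Pt} (hx : x ∉ N)
    (hy : y ∈ closure N) {s : ℝ} (hs : 0 ≤ s) : x + s • (x - y) ∉ N := by
  intro hz
  rcases eq_or_lt_of_le hs with h0 | h0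
  · rw [← h0, zero_smul, add_zero] at hz
    exact hx hz
  · apply hx
    have h1 := hNc.openSegment_interior_closure_subset_interior
      (by rw [hNo.interior_eq]; exact hz) hy
    rw [hNo.interior_eq] at h1
    apply h1
    refine ⟨1 / (1 + s), s / (1 + s), by positivity, by positivity, by field_simp, ?_⟩
    apply Prod.ext
    · simp only [Prod.fst_add, Prod.smul_fst, smul_eq_mul, Prod.fst_sub]
      field_simp
      ring
    · simp only [Prod.snd_add, Prod.smul_snd, smul_eq_mul, Prod.snd_sub]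
      field_simp
      ring

theorem not_mem_backward {N : Set Pt} (hNo : IsOpen N) (hNc : Convex ℝ N) {x y : Pt} (hx : x ∉ N)
    {ε : ℝ} (hε : 0 < ε) (hz : x + ε • (x - y) ∈ closure N) {s : ℝ} (hs : s < 0) :
    x + s • (x - y) ∉ N := by
  intro hw
  apply hx
  have h1 := hNc.openSegment_interior_closure_subset_interior
    (by rw [hNo.interior_eq]; exact hw) hz
  rw [hNo.interior_eq] at h1
  apply h1
  have h2 : 0 < ε - s := by linarith
  refine ⟨ε / (ε - s), -s / (ε - s), by positivity, div_pos (by linarith) h2, by field_simp; ring,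
    ?_⟩
  apply Prod.ext
  · simp only [Prod.fst_add, Prod.smul_fst, smul_eq_mul, Prod.fst_sub]
    field_simp
    ring
  · simp only [Prod.snd_add, Prod.smul_snd, smul_eq_mul, Prod.snd_sub]
    field_simp
    ring

/-- a convex set containing segments in two independent directions around a point contains a
neighbourhood of the point -/
theorem mem_nhds_of_two {K : Set Pt} (hK : Convex ℝ K) {x w w' : Pt}
    (hdet : w.1 * w'.2 - w.2 * w'.1 ≠ 0) (h : ∀ᶠ s in 𝓝 (0 : ℝ), x + s • w ∈ K)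
    (h' : ∀ᶠ s in 𝓝 (0 : ℝ), x + s • w' ∈ K) : K ∈ 𝓝 x := by
  set D := w.1 * w'.2 - w.2 * w'.1 with hD
  set a : Pt → ℝ := fun q => 2 * (((q.1 - x.1) * w'.2 - (q.2 - x.2) * w'.1) / D) with ha
  set b : Pt → ℝ := fun q => 2 * ((w.1 * (q.2 - x.2) - w.2 * (q.1 - x.1)) / D) with hb
  have ha' : Filter.Tendsto a (𝓝 x) (𝓝 0) := by
    have h1 : Continuous a := by rw [ha]; fun_prop
    have h2 := h1.tendsto x
    have h3 : a x = 0 := by simp [ha]
    rwa [h3] at h2
  have hb' : Filter.Tendsto b (𝓝 x) (𝓝 0) := by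
    have h1 : Continuous b := by rw [hb]; fun_prop
    have h2 := h1.tendsto x
    have h3 : b x = 0 := by simp [hb]
    rwa [h3] at h2
  filter_upwards [ha'.eventually h, hb'.eventually h'] with q h1 h2
  have h3 := hK h1 h2 (a := 1 / 2) (b := 1 / 2) (by norm_num) (by norm_num) (by norm_num)
  have h4 : (1 / 2 : ℝ) • (x + a q • w) + (1 / 2 : ℝ) • (x + b q • w') = q := by
    apply Prod.ext
    · simp only [Prod.fst_add, Prod.smul_fst, smul_eq_mul, ha, hb]
      field_simp
      rw [hD]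
      ring
    · simp only [Prod.snd_add, Prod.smul_snd, smul_eq_mul, ha, hb]
      field_simp
      rw [hD]
      ring
  rwa [h4] at h3

end Pool.Agent.Helper97.UDP.Gad
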