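import Mathlib

/-!
# A minimal type which is somewhere dense
-/

set_option autoImplicit false

namespace Pool.Agent.Helper97.UDP.Gad

open Set Topology

section

variable {E Ω ι : Type*} [TopologicalSpace Ω]

/-- If no type of `𝒯` is dense in a nonempty relatively open subset of `U ∩ H` then there is such a
subset avoiding all of them. -/
theorem avoid (ty : E → Set ι) (Y : E → Ω) (G : Set E) (H U : Set Ω)
    (𝒯 : Finset (Set ι))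
    (h𝒯 : ∀ T ∈ 𝒯, ¬ ∃ U', IsOpen U' ∧ U' ⊆ U ∧ (U' ∩ H).Nonempty ∧
      U' ∩ H ⊆ closure (Y '' {c | c ∈ G ∧ ty c = T}))
    (hU : IsOpen U) (hne : (U ∩ H).Nonempty) :
    ∃ U', IsOpen U' ∧ U' ⊆ U ∧ (U' ∩ H).Nonempty ∧ ∀ T ∈ 𝒯, ∀ c ∈ G, ty c = T → Y c ∉ U' := by
  classical
  induction 𝒯 using Finset.induction_on with
  | empty => exact ⟨U, hU, subset_rfl, hne, fun T hT => absurd hT (Finset.notMem_empty T)⟩
  | insert T 𝒯 hT ih =>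
    obtain ⟨U₁, h1, h2, h3, h4⟩ := ih fun T' hT' => h𝒯 T' (Finset.mem_insert_of_mem hT')
    have h5 := h𝒯 T (Finset.mem_insert_self _ _)
    have h6 : ¬ U₁ ∩ H ⊆ closure (Y '' {c | c ∈ G ∧ ty c = T}) := fun h => h5 ⟨U₁, h1, h2, h3, h⟩
    obtain ⟨x, hx, hxc⟩ := not_subset.1 h6
    refine ⟨U₁ ∩ (closure (Y '' {c | c ∈ G ∧ ty c = T}))ᶜ, h1.inter isClosed_closure.isOpen_compl,
      inter_subset_left.trans h2, ⟨x, ⟨hx.1, hxc⟩, hx.2⟩, ?_⟩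
    intro T' hT' c hc hcT hcU
    rcases Finset.mem_insert.1 hT' with rfl | hT'
    · exact hcU.2 (subset_closure ⟨c, ⟨hc, hcT⟩, rfl⟩)
    · exact h4 T' hT' c hc hcT hcU.1

theorem exists_type [TopologicalSpace E] [Finite ι] (ty : E → Set ι) (Y : E → Ω) (G : Set E)
    (hY : Continuous Y) (hty : ∀ c, ∀ᶠ c' in 𝓝 c, ty c' ⊆ ty c) (H U : Set Ω) (hU : IsOpen U)
    (hne : (U ∩ H).Nonempty) (hsurj : U ∩ H ⊆ Y '' G) :
    ∃ (T : Set ι) (U' : Set Ω), IsOpen U' ∧ U' ⊆ U ∧ (U' ∩ H).Nonempty ∧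
      (∀ U'' : Set Ω, IsOpen U'' → (U'' ∩ (U' ∩ H)).Nonempty →
        ∃ c ∈ G, ty c = T ∧ Y c ∈ U' ∧ Y c ∈ U'') ∧
      ∀ c ∈ G, ty c = T → Y c ∈ U' → ∀ᶠ c' in 𝓝 c, c' ∈ G → ty c' = T := by
  classical
  have : Fintype ι := Fintype.ofFinite ι
  have : Fintype (Set ι) := Fintype.ofFinite _
  set good : Set (Set ι) := {T | ∃ U', IsOpen U' ∧ U' ⊆ U ∧ (U' ∩ H).Nonempty ∧
      U' ∩ H ⊆ closure (Y '' {c | c ∈ G ∧ ty c = T})} with hgood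
  have hex : good.Nonempty := by
    by_contra hcon
    rw [not_nonempty_iff_eq_empty] at hcon
    obtain ⟨U', h1, h2, h3, h4⟩ := avoid ty Y G H U Finset.univ (fun T _ hT => by
      have : T ∈ good := hT
      rw [hcon] at this
      exact this) hU hne
    obtain ⟨x, hx1, hx2⟩ := h3
    obtain ⟨c, hc, rfl⟩ := hsurj ⟨h2 hx1, hx2⟩
    exact h4 (ty c) (Finset.mem_univ _) c hc rfl hx1
  obtain ⟨T, hT, hmin⟩ := WellFounded.has_min (wellFounded_lt (α := Set ι)) good hex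
  obtain ⟨U₁, h1, h2, h3, h4⟩ := hT
  obtain ⟨U₂, h5, h6, h7, h8⟩ := avoid ty Y G H U₁ (Finset.univ.filter fun T' => T' < T)
    (by
      rintro T' hT' ⟨U', hU'1, hU'2, hU'3, hU'4⟩
      exact hmin T' ⟨U', hU'1, hU'2.trans h2, hU'3, hU'4⟩ (Finset.mem_filter.1 hT').2) h1 h3
  refine ⟨T, U₂, h5, h6.trans h2, h7, ?_, ?_⟩
  · rintro U'' hU'' ⟨x, hx1, hx2, hx3⟩
    have h9 := h4 ⟨h6 hx2, hx3⟩
    rw [mem_closure_iff] at h9
    obtain ⟨y, ⟨hy1, hy2⟩, c, ⟨hc, hcT⟩, rfl⟩ := h9 (U'' ∩ U₂) (hU''.inter h5) ⟨hx1, hx2⟩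
    exact ⟨c, hc, hcT, hy2, hy1⟩
  · intro c hc hcT hcU
    have h9 : ∀ᶠ c' in 𝓝 c, Y c' ∈ U₂ := hY.continuousAt.eventually_mem (h5.mem_nhds hcU)
    filter_upwards [hty c, h9] with c' h10 h11 h12
    rw [hcT] at h10
    by_contra hne'
    exact h8 (ty c') (Finset.mem_filter.2 ⟨Finset.mem_univ _, lt_of_le_of_ne h10 hne'⟩) c' h12 rfl
      h11

end

end Pool.Agent.Helper97.UDP.Gad
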